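import Mathlib

/-!
# J-holomorphic spheres, their linearised operator and regularity

General definitions, for an arbitrary smooth manifold `X` with model `I`:

* `IsSymplectic I σ`: `σ` is a smooth closed nondegenerate 2-form;
* `IsCompatible I σ J`: `J` is a smooth almost complex structure compatible with `σ`;
* `S2`, `rotJ`: the Riemann sphere, as the unit sphere of Euclidean 3-space with the rotation
  `v ↦ z × v` as complex structure;
* `IsJHolomorphic I J u`: `u : S2 → X` is smooth with `du ∘ j = J ∘ du`;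
* `linearization I J u ξ`: the linearised Cauchy-Riemann operator `D_u ξ`;
* `IsRegular I J u`: `D_u` from smooth sections of `u^*TX` to smooth (0,1)-forms is surjective;
* `IsCoveringFamily I IB J u`: a smooth family of J-holomorphic spheres whose images cover `X`.

At the end, `Torus`, `IT`, `IX` name the 4-torus and the models of `T⁴` and of `T⁴ × S²`.
-/

open scoped Manifold ContDiff
open Metric Set

noncomputable section

namespace Pool.Agent.Helper29.JSphere

section Symplectic

variable {E : Type*} [NormedAddCommGroup E] [NormedSpace ℝ E]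
  {H : Type*} [TopologicalSpace H] (I : ModelWithCorners ℝ E H)
  {X : Type*} [TopologicalSpace X] [ChartedSpace H X]

/-- The 2-form `σ` on `X`, read in the preferred chart at `x₀`: its pull-back to the model vector
space `E` under the inverse of that chart. -/
def chartForm (σ : ∀ x : X, TangentSpace I x [⋀^Fin 2]→L[ℝ] ℝ) (x₀ : X) (e : E) :
    E [⋀^Fin 2]→L[ℝ] ℝ :=
  (σ ((extChartAt I x₀).symm e)).compContinuousLinearMap
    (mfderivWithin 𝓘(ℝ, E) I (extChartAt I x₀).symm (range I) e)

/-- `σ` is a symplectic form on `X`: smooth and closed in every chart, and nondegenerate. -/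
structure IsSymplectic (σ : ∀ x : X, TangentSpace I x [⋀^Fin 2]→L[ℝ] ℝ) : Prop where
  smooth : ∀ x₀ : X, ContDiffOn ℝ ∞ (chartForm I σ x₀) (extChartAt I x₀).target
  closed : ∀ x₀ : X, ∀ e ∈ (extChartAt I x₀).target,
    extDerivWithin (chartForm I σ x₀) (range I) e = 0
  nondegenerate : ∀ (x : X) (v : TangentSpace I x), (∀ w, σ x ![v, w] = 0) → v = 0

variable [IsManifold I ∞ X]

/-- `J` is a smooth almost complex structure on `X`, compatible with the 2-form `σ`. -/
structure IsCompatible (σ : ∀ x : X, TangentSpace I x [⋀^Fin 2]→L[ℝ] ℝ)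
    (J : ∀ x : X, TangentSpace I x →L[ℝ] TangentSpace I x) : Prop where
  smooth : ContMDiff I.tangent I.tangent ∞
    (fun v : TangentBundle I X => (⟨v.1, J v.1 v.2⟩ : TangentBundle I X))
  sq : ∀ (x : X) (v : TangentSpace I x), J x (J x v) = -v
  preserves : ∀ (x : X) (v w : TangentSpace I x), σ x ![J x v, J x w] = σ x ![v, w]
  pos : ∀ (x : X) (v : TangentSpace I x), v ≠ 0 → 0 < σ x ![v, J x v]

end Symplectic

section Sphere

/-- The unit sphere of Euclidean 3-space. -/
abbrev S2 : Type := sphere (0 : EuclideanSpace ℝ (Fin 3)) 1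

/-- The differential at `z` of the inclusion of the unit sphere in Euclidean 3-space. -/
def incl (z : S2) : TangentSpace (𝓡 2) z →L[ℝ] EuclideanSpace ℝ (Fin 3) :=
  mvfderiv (𝓡 2) ((↑) : S2 → EuclideanSpace ℝ (Fin 3)) z

/-- The cross product on Euclidean 3-space. -/
def cross3 (a b : EuclideanSpace ℝ (Fin 3)) : EuclideanSpace ℝ (Fin 3) :=
  WithLp.toLp 2 (crossProduct a.ofLp b.ofLp)

theorem incl_injective (z : S2) : Function.Injective (incl z) :=
  haveI := Fact.mk (@finrank_euclideanSpace_fin ℝ _ 3)
  injective_mvfderiv_subtypeVal_sphere z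

theorem range_incl (z : S2) : (incl z).range = (Submodule.span ℝ {(z : EuclideanSpace ℝ (Fin 3))})ᗮ :=
  haveI := Fact.mk (@finrank_euclideanSpace_fin ℝ _ 3)
  range_mvfderiv_subtypeVal z

theorem inner_incl (z : S2) (v : TangentSpace (𝓡 2) z) :
    inner ℝ (z : EuclideanSpace ℝ (Fin 3)) (incl z v) = 0 := by
  have h : incl z v ∈ (incl z).range := ⟨v, rfl⟩
  rw [range_incl, Submodule.mem_orthogonal_singleton_iff_inner_right] at h
  exact h

theorem exists_incl_eq (z : S2) (w : EuclideanSpace ℝ (Fin 3))
    (h : inner ℝ (z : EuclideanSpace ℝ (Fin 3)) w = 0) : ∃ v, incl z v = w := by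
  have : w ∈ (incl z).range := by
    rw [range_incl, Submodule.mem_orthogonal_singleton_iff_inner_right]
    exact h
  exact this

/-- cross product with `a` as a linear map -/
def cross3L (a : EuclideanSpace ℝ (Fin 3)) :
    EuclideanSpace ℝ (Fin 3) →ₗ[ℝ] EuclideanSpace ℝ (Fin 3) where
  toFun b := cross3 a b
  map_add' b c := by simp [cross3]
  map_smul' r b := by simp [cross3]

theorem inner_cross3_self (a b : EuclideanSpace ℝ (Fin 3)) : inner ℝ a (cross3 a b) = 0 := by
  simp [cross3, PiLp.inner_apply, Fin.sum_univ_three, crossProduct]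
  ring

theorem exists_rotJ (z : S2) : ∃ j : TangentSpace (𝓡 2) z →L[ℝ] TangentSpace (𝓡 2) z,
    ∀ v, incl z (j v) = cross3 z (incl z v) := by
  have : FiniteDimensional ℝ (TangentSpace (𝓡 2) z) :=
    inferInstanceAs (FiniteDimensional ℝ (EuclideanSpace ℝ (Fin 2)))
  have : T2Space (TangentSpace (𝓡 2) z) := inferInstanceAs (T2Space (EuclideanSpace ℝ (Fin 2)))
  obtain ⟨g, hg⟩ := LinearMap.exists_leftInverse_of_injective (incl z).toLinearMap
    (LinearMap.ker_eq_bot.2 (incl_injective z))
  refine ⟨LinearMap.toContinuousLinearMap (g ∘ₗ cross3L z ∘ₗ (incl z).toLinearMap), fun v => ?_⟩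
  obtain ⟨w, hw⟩ := exists_incl_eq z (cross3 z (incl z v)) (inner_cross3_self _ _)
  have : g (cross3 z (incl z v)) = w := by
    rw [← hw]
    exact LinearMap.congr_fun hg w
  rw [← hw]
  congr 1

/-- The standard complex structure of the Riemann sphere, in the model of the unit sphere of
Euclidean 3-space: the rotation by a right angle `v ↦ z × v` of the tangent plane at `z`. It is
the unique linear endomorphism of the tangent plane with the property `incl_rotJ`. -/
def rotJ (z : S2) : TangentSpace (𝓡 2) z →L[ℝ] TangentSpace (𝓡 2) z :=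
  Classical.choose (exists_rotJ z)

theorem incl_rotJ (z : S2) (v : TangentSpace (𝓡 2) z) :
    incl z (rotJ z v) = cross3 z (incl z v) :=
  Classical.choose_spec (exists_rotJ z) v

end Sphere

section Curves

variable {E : Type*} [NormedAddCommGroup E] [NormedSpace ℝ E]
  {H : Type*} [TopologicalSpace H] (I : ModelWithCorners ℝ E H)
  {X : Type*} [TopologicalSpace X] [ChartedSpace H X]

/-- The endomorphism field `J` read in the preferred chart at `x₀`. -/
def chartJ (J : ∀ x : X, TangentSpace I x →L[ℝ] TangentSpace I x) (x₀ : X) (e : E) : E →L[ℝ] E :=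
  (mfderiv I 𝓘(ℝ, E) (extChartAt I x₀) ((extChartAt I x₀).symm e)) ∘L
    (J ((extChartAt I x₀).symm e)) ∘L
      (mfderivWithin 𝓘(ℝ, E) I (extChartAt I x₀).symm (range I) e)

/-- The map `u : S2 → X` read in the preferred chart at `x₀`. -/
def chartMap (u : S2 → X) (x₀ : X) (z : S2) : E := extChartAt I x₀ (u z)

/-- The section `ξ` of `u^*TX` read in the preferred chart at `x₀`. -/
def chartSection (u : S2 → X) (ξ : ∀ z : S2, TangentSpace I (u z)) (x₀ : X) (z : S2) : E :=
  mfderiv I 𝓘(ℝ, E) (extChartAt I x₀) (u z) (ξ z)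

/-- The linearised Cauchy-Riemann operator at a J-holomorphic sphere `u`, applied to the section
`ξ` of `u^*TX`. In local coordinates of `X`, linearising `½ (du + J(u) ∘ du ∘ j)` in the direction
`ξ` gives `½ (dξ + J(u) ∘ dξ ∘ j + (∂_ξ J)(u) ∘ du ∘ j)`. At the point `z` this is computed in the
preferred chart at `u z` and carried back to the tangent space of `X` at `u z`. (For J-holomorphic
`u` the expression does not depend on the chart.) -/
def linearization (J : ∀ x : X, TangentSpace I x →L[ℝ] TangentSpace I x) (u : S2 → X)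
    (ξ : ∀ z : S2, TangentSpace I (u z)) (z : S2) :
    TangentSpace (𝓡 2) z →L[ℝ] TangentSpace I (u z) :=
  (mfderivWithin 𝓘(ℝ, E) I (extChartAt I (u z)).symm (range I) (extChartAt I (u z) (u z))) ∘L
    ((1 / 2 : ℝ) •
      (mvfderiv (𝓡 2) (chartSection I u ξ (u z)) z
        + (chartJ I J (u z) (extChartAt I (u z) (u z))) ∘L
            (mvfderiv (𝓡 2) (chartSection I u ξ (u z)) z) ∘L (rotJ z)
        + (fderivWithin ℝ (chartJ I J (u z)) (range I) (extChartAt I (u z) (u z))
              (chartSection I u ξ (u z) z)) ∘L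
            (mvfderiv (𝓡 2) (chartMap I u (u z)) z) ∘L (rotJ z)))

variable [IsManifold I ∞ X]

/-- `u` is a J-holomorphic sphere: a smooth map with `du ∘ j = J ∘ du`. -/
structure IsJHolomorphic (J : ∀ x : X, TangentSpace I x →L[ℝ] TangentSpace I x)
    (u : S2 → X) : Prop where
  smooth : ContMDiff (𝓡 2) I ∞ u
  holo : ∀ (z : S2) (v : TangentSpace (𝓡 2) z),
    mfderiv (𝓡 2) I u z (rotJ z v) = J (u z) (mfderiv (𝓡 2) I u z v)

/-- `ξ` is a smooth section of `u^*TX`. -/
def IsSmoothSection (u : S2 → X) (ξ : ∀ z : S2, TangentSpace I (u z)) : Prop :=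
  ContMDiff (𝓡 2) I.tangent ∞ (fun z => (⟨u z, ξ z⟩ : TangentBundle I X))

/-- `η` is a smooth (0,1)-form on the sphere with values in `u^*TX`: a smooth family of real-linear
maps `η z : T_z S2 → T_{u z} X` with `η ∘ j = - J ∘ η`. -/
structure IsZeroOneForm (J : ∀ x : X, TangentSpace I x →L[ℝ] TangentSpace I x) (u : S2 → X)
    (η : ∀ z : S2, TangentSpace (𝓡 2) z →L[ℝ] TangentSpace I (u z)) : Prop where
  smooth : ContMDiff (𝓡 2).tangent I.tangent ∞
    (fun v : TangentBundle (𝓡 2) S2 => (⟨u v.1, η v.1 v.2⟩ : TangentBundle I X))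
  antilinear : ∀ (z : S2) (v : TangentSpace (𝓡 2) z), η z (rotJ z v) = -J (u z) (η z v)

/-- `u` is regular: the cokernel `H¹(ℙ¹; u^*TX)` of `D_u : Γ(u^*TX) → Ω^{0,1}(ℙ¹; u^*TX)` is zero,
i.e. every smooth (0,1)-form with values in `u^*TX` is `D_u ξ` for a smooth section `ξ`. -/
def IsRegular (J : ∀ x : X, TangentSpace I x →L[ℝ] TangentSpace I x) (u : S2 → X) : Prop :=
  ∀ η : (∀ z : S2, TangentSpace (𝓡 2) z →L[ℝ] TangentSpace I (u z)), IsZeroOneForm I J u η →
    ∃ ξ : (∀ z : S2, TangentSpace I (u z)), IsSmoothSection I u ξ ∧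
      ∀ z, linearization I J u ξ z = η z

variable {EB : Type*} [NormedAddCommGroup EB] [NormedSpace ℝ EB]
  {HB : Type*} [TopologicalSpace HB] (IB : ModelWithCorners ℝ EB HB)
  {B : Type*} [TopologicalSpace B] [ChartedSpace HB B]

/-- `u` is a smooth family, parametrised by the manifold `B`, of J-holomorphic spheres in `X` whose
images together cover `X`. -/
structure IsCoveringFamily (J : ∀ x : X, TangentSpace I x →L[ℝ] TangentSpace I x)
    (u : B → S2 → X) : Prop where
  smooth : ContMDiff (IB.prod (𝓡 2)) I ∞ (fun p : B × S2 => u p.1 p.2)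
  holo : ∀ b : B, IsJHolomorphic I J (u b)
  covers : ∀ x : X, ∃ (b : B) (z : S2), u b z = x

end Curves

section TorusModel

/-- The 4-dimensional torus, as a product of four unit circles (a compact connected manifold). -/
abbrev Torus : Type := Circle × Circle × Circle × Circle

/-- The model of the torus as a smooth manifold. -/
abbrev IT := (𝓡 1).prod ((𝓡 1).prod ((𝓡 1).prod (𝓡 1)))

/-- The model of the 6-dimensional manifold `T⁴ × S²` as a smooth manifold. -/
abbrev IX := IT.prod (𝓡 2)

end TorusModel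

end Pool.Agent.Helper29.JSphere
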