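import Mathlib

open scoped Manifold ContDiff Topology
open Metric Set Bundle

noncomputable section

namespace Pool.Agent.Helper29.JSphere

section Lift

variable {E : Type*} [NormedAddCommGroup E] [NormedSpace ℝ E] [FiniteDimensional ℝ E]
  {H : Type*} [TopologicalSpace H] {I : ModelWithCorners ℝ E H}
  {X : Type*} [TopologicalSpace X] [ChartedSpace H X] [IsManifold I ∞ X]
  {V : Type*} [NormedAddCommGroup V] [NormedSpace ℝ V] [FiniteDimensional ℝ V]
  {EN : Type*} [NormedAddCommGroup EN] [NormedSpace ℝ EN]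
  {HN : Type*} [TopologicalSpace HN] {IN : ModelWithCorners ℝ EN HN}
  {N : Type*} [TopologicalSpace N] [ChartedSpace HN N]

/-- A map into the tangent bundle is smooth as soon as its base part is smooth and its composition
with the differential of an immersion into a vector space is smooth. -/
theorem contMDiff_lift {iota : X → V} (hι : ContMDiff I 𝓘(ℝ, V) ∞ iota)
    (hinj : ∀ x, Function.Injective (mvfderiv I iota x))
    {f : N → TangentBundle I X} (hf : ContMDiff IN I ∞ (fun n => (f n).1))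
    (hg : ContMDiff IN 𝓘(ℝ, V) ∞ (fun n => mvfderiv I iota (f n).1 (f n).2)) :
    ContMDiff IN I.tangent ∞ f := by
  have : CompleteSpace E := FiniteDimensional.complete ℝ E
  intro n₀
  rw [Bundle.contMDiffAt_totalSpace]
  refine ⟨hf n₀, ?_⟩
  set x₀ : X := (f n₀).1 with hx₀
  -- local expression of the differential of `iota`
  have hA := ContMDiffAt.mfderiv_const (m := ∞) (hι x₀) le_rfl
  set A : X → E →L[ℝ] V := inTangentCoordinates I 𝓘(ℝ, V) id iota (mfderiv I 𝓘(ℝ, V) iota) x₀
    with hAdef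
  have hAx : ∀ x ∈ (chartAt H x₀).source, ∀ v : TangentSpace I x,
      A x (mfderiv I 𝓘(ℝ, E) (extChartAt I x₀) x v) = mvfderiv I iota x v := by
    intro x hx v
    have hy : iota x ∈ (chartAt V (iota x₀)).source := by simp
    rw [hAdef, inTangentCoordinates_eq_mfderiv_comp (f := id) (g := iota) hx hy]
    have h1 : (mfderivWithin 𝓘(ℝ, E) I (extChartAt I x₀).symm (range I) (extChartAt I x₀ x))
        (mfderiv I 𝓘(ℝ, E) (extChartAt I x₀) x v) = v := by
      have := mfderivWithin_extChartAt_symm_comp_mfderiv_extChartAt' (I := I) (x := x₀) (y := x)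
        (by simpa using hx)
      exact congrArg (fun L => L v) this
    have h2 := congrArg (fun w => (mfderiv 𝓘(ℝ, V) 𝓘(ℝ, V) (extChartAt 𝓘(ℝ, V) (iota x₀)) (iota x))
      (mfderiv I 𝓘(ℝ, V) iota x w)) h1
    refine h2.trans ?_
    have h3 : mfderiv 𝓘(ℝ, V) 𝓘(ℝ, V) (extChartAt 𝓘(ℝ, V) (iota x₀)) (iota x)
        = ContinuousLinearMap.id ℝ V := by
      have : (extChartAt 𝓘(ℝ, V) (iota x₀) : V → V) = id := by
        simp
      rw [this]
      exact mfderiv_id
    exact congrArg (fun L => L (mfderiv I 𝓘(ℝ, V) iota x v)) h3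
  have hinj0 : Function.Injective (A x₀) := by
    intro v w hvw
    have key : ∀ v : E, A x₀ v = mvfderiv I iota x₀ v := by
      intro v
      have h1 := hAx x₀ (mem_chart_source H x₀) v
      rw [mfderiv_extChartAt_self] at h1
      exact h1
    rw [key, key] at hvw
    exact hinj x₀ hvw
  obtain ⟨P, hP⟩ := LinearMap.exists_leftInverse_of_injective (A x₀).toLinearMap
    (LinearMap.ker_eq_bot.2 hinj0)
  set P' : V →L[ℝ] E := LinearMap.toContinuousLinearMap P with hP'
  set B : X → E →L[ℝ] E := fun x => P' ∘L A x with hB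
  have hBs : ContMDiffAt I 𝓘(ℝ, E →L[ℝ] E) ∞ B x₀ := contMDiffAt_const.clm_comp hA
  have hB0 : B x₀ = ((ContinuousLinearEquiv.refl ℝ E : E ≃L[ℝ] E) : E →L[ℝ] E) := by
    ext v
    exact LinearMap.congr_fun hP v
  have hinv : ContMDiffAt I 𝓘(ℝ, E →L[ℝ] E) ∞ (fun x => (B x).inverse) x₀ := by
    have h1 : ContDiffAt ℝ ∞ ContinuousLinearMap.inverse (B x₀) := by
      rw [hB0]; exact contDiffAt_map_inverse _
    exact h1.contMDiffAt.comp x₀ hBs
  have hf0 : ContMDiffAt IN I ∞ (fun n => (f n).1) n₀ := hf n₀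
  have h1 : ContMDiffAt IN 𝓘(ℝ, E) ∞
      (fun n => (B (f n).1).inverse (P' (mvfderiv I iota (f n).1 (f n).2))) n₀ := by
    apply ContMDiffAt.clm_apply
    · exact ContMDiffAt.comp n₀ (g := fun x => (B x).inverse) hinv hf0
    · exact (contMDiffAt_const (c := P')).clm_apply (hg n₀)
  refine h1.congr_of_eventuallyEq ?_
  have hc : ∀ᶠ n in 𝓝 n₀, (f n).1 ∈ (chartAt H x₀).source :=
    hf0.continuousAt.eventually ((chartAt H x₀).open_source.mem_nhds (mem_chart_source H x₀))
  have hi : ∀ᶠ n in 𝓝 n₀, B (f n).1 ∈ range ((↑) : (E ≃L[ℝ] E) → E →L[ℝ] E) := by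
    have hcont : ContinuousAt (fun n => B (f n).1) n₀ :=
      ContinuousAt.comp (g := B) hBs.continuousAt hf0.continuousAt
    apply hcont.eventually
    show ∀ᶠ y in 𝓝 (B x₀), y ∈ range ((↑) : (E ≃L[ℝ] E) → E →L[ℝ] E)
    rw [hB0]
    exact ContinuousLinearEquiv.nhds _
  filter_upwards [hc, hi] with n hn1 hn2
  obtain ⟨e, he⟩ := hn2
  have hinvert : (B (f n).1).inverse ((B (f n).1) ((trivializationAt E (TangentSpace I) x₀ (f n)).2))
      = (trivializationAt E (TangentSpace I) x₀ (f n)).2 := by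
    rw [← he]
    simp
  rw [← hinvert]
  congr 1
  show P' (A (f n).1 _) = _
  congr 1
  rw [← hAx (f n).1 hn1 (f n).2]
  congr 1
  have h4 := TangentBundle.continuousLinearMapAt_trivializationAt (I := I) (x₀ := x₀) hn1
  have h5 : (trivializationAt E (TangentSpace I) x₀).continuousLinearMapAt ℝ (f n).1 (f n).2
      = (trivializationAt E (TangentSpace I) x₀ (f n)).2 := by
    rw [Trivialization.continuousLinearMapAt_apply, Trivialization.linearMapAt_apply,
      if_pos (by simpa using hn1)]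
  exact h5.symm.trans (congrArg (fun L => L (f n).2) h4)

end Lift

end Pool.Agent.Helper29.JSphere
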