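import Mathlib

open scoped Manifold ContDiff Topology
open Metric Set

noncomputable section

namespace Pool.Agent.Helper29.JSphere

section Wedge

variable {V : Type*} [NormedAddCommGroup V] [NormedSpace ℝ V]
  {E : Type*} [NormedAddCommGroup E] [NormedSpace ℝ E]

/-- The wedge product of two linear functionals. -/
def wedge (α β : V →L[ℝ] ℝ) : V [⋀^Fin 2]→L[ℝ] ℝ :=
  ContinuousAlternatingMap.alternatizeUncurryFinCLM ℝ V ℝ
    (α.smulRight (ContinuousAlternatingMap.ofSubsingletonLIE (0 : Fin 1) β))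

theorem wedge_apply' (α β : V →L[ℝ] ℝ) (v : Fin 2 → V) :
    wedge α β v = α (v 0) * β (v 1) - α (v 1) * β (v 0) := by
  simp [wedge, ContinuousAlternatingMap.alternatizeUncurryFin_apply, Fin.sum_univ_two,
    Fin.removeNth_apply]
  rfl

@[simp]
theorem wedge_apply (α β : V →L[ℝ] ℝ) (v w : V) :
    wedge α β ![v, w] = α v * β w - α w * β v := by
  rw [wedge_apply']; simp

theorem wedge_comp (α β : V →L[ℝ] ℝ) (L : E →L[ℝ] V) :
    (wedge α β).compContinuousLinearMap L = wedge (α ∘L L) (β ∘L L) := by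
  ext v
  simp [wedge_apply']

theorem contDiffOn_wedge {F : Type*} [NormedAddCommGroup F] [NormedSpace ℝ F] {s : Set F}
    {n : WithTop ℕ∞}
    {α β : F → V →L[ℝ] ℝ} (hα : ContDiffOn ℝ n α s) (hβ : ContDiffOn ℝ n β s) :
    ContDiffOn ℝ n (fun p => wedge (α p) (β p)) s := by
  have h1 : ContDiffOn ℝ n
      (fun p => (ContinuousAlternatingMap.ofSubsingletonLIE (𝕜 := ℝ) (E := V) (F := ℝ)
        (0 : Fin 1)) (β p)) s :=
    (ContinuousAlternatingMap.ofSubsingletonLIE (𝕜 := ℝ) (E := V) (F := ℝ)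
      (0 : Fin 1)).contDiff.comp_contDiffOn hβ
  have h2 := hα.smulRight h1
  exact (ContinuousAlternatingMap.alternatizeUncurryFinCLM ℝ V ℝ).contDiff.comp_contDiffOn h2

end Wedge

end Pool.Agent.Helper29.JSphere
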