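import Mathlib
import Pool.Agent.Helper29.JSphere.Defs
import Pool.Agent.Helper29.JSphere.Lift
import Pool.Agent.Helper29.JSphere.Wedge

open scoped Manifold ContDiff Topology
open Metric Set

noncomputable section

namespace Pool.Agent.Helper29.JSphere

section Calc

variable {E : Type*} [NormedAddCommGroup E] [NormedSpace ℝ E]
  {H : Type*} [TopologicalSpace H] {I : ModelWithCorners ℝ E H}
  {M : Type*} [TopologicalSpace M] [ChartedSpace H M]
  {E' : Type*} [NormedAddCommGroup E'] [NormedSpace ℝ E']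
  {H' : Type*} [TopologicalSpace H'] {I' : ModelWithCorners ℝ E' H'}
  {M' : Type*} [TopologicalSpace M'] [ChartedSpace H' M']
  {W : Type*} [NormedAddCommGroup W] [NormedSpace ℝ W]
  {W' : Type*} [NormedAddCommGroup W'] [NormedSpace ℝ W']

theorem mvfderiv_comp_apply' {g : M → W} {f : M' → M} (x : M')
    (hg : MDifferentiableAt I 𝓘(ℝ, W) g (f x)) (hf : MDifferentiableAt I' I f x)
    (v : TangentSpace I' x) :
    mvfderiv I' (fun y => g (f y)) x v = mvfderiv I g (f x) (mfderiv I' I f x v) :=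
  mfderiv_comp_apply x hg hf v

theorem mvfderiv_clm_apply (L : W →L[ℝ] W') {f : M → W} {x : M}
    (hf : MDifferentiableAt I 𝓘(ℝ, W) f x) (v : TangentSpace I x) :
    mvfderiv I (fun y => L (f y)) x v = L (mvfderiv I f x v) := by
  have h1 := mvfderiv_comp_apply' (I := 𝓘(ℝ, W)) (I' := I) (g := fun w => L w) (f := f) x
    L.mdifferentiableAt hf v
  rw [h1]
  have h2 : mfderiv 𝓘(ℝ, W) 𝓘(ℝ, W') (fun w => L w) (f x) = L := by
    exact L.mfderiv_eq
  exact congrArg (fun K => K (mfderiv I 𝓘(ℝ, W) f x v)) h2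

theorem mvfderiv_fst_apply {g : M → W} {p : M × M'}
    (hg : MDifferentiableAt I 𝓘(ℝ, W) g p.1) (v : TangentSpace (I.prod I') p) :
    mvfderiv (I.prod I') (fun q : M × M' => g q.1) p v = mvfderiv I g p.1 v.1 := by
  have h1 := mvfderiv_comp_apply' (I := I) (I' := I.prod I') (g := g) (f := Prod.fst) p
    hg mdifferentiableAt_fst v
  rw [h1, mfderiv_fst]
  rfl

theorem mvfderiv_snd_apply {g : M' → W} {p : M × M'}
    (hg : MDifferentiableAt I' 𝓘(ℝ, W) g p.2) (v : TangentSpace (I.prod I') p) :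
    mvfderiv (I.prod I') (fun q : M × M' => g q.2) p v = mvfderiv I' g p.2 v.2 := by
  have h1 := mvfderiv_comp_apply' (I := I') (I' := I.prod I') (g := g) (f := Prod.snd) p
    hg mdifferentiableAt_snd v
  rw [h1, mfderiv_snd]
  rfl

theorem mvfderiv_prodMk_apply {f : M → W} {g : M → W'} {x : M}
    (hf : MDifferentiableAt I 𝓘(ℝ, W) f x) (hg : MDifferentiableAt I 𝓘(ℝ, W') g x)
    (v : TangentSpace I x) :
    mvfderiv I (fun y => (f y, g y)) x v = (mvfderiv I f x v, mvfderiv I g x v) := by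
  have hfg : MDifferentiableAt I 𝓘(ℝ, W × W') (fun y => (f y, g y)) x := hf.prodMk_space hg
  have h1 := mvfderiv_clm_apply (ContinuousLinearMap.fst ℝ W W') hfg v
  have h2 := mvfderiv_clm_apply (ContinuousLinearMap.snd ℝ W W') hfg v
  exact Prod.ext h1.symm h2.symm

end Calc

end Pool.Agent.Helper29.JSphere
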