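import Mathlib
import Pool.Agent.Helper29.JSphere.Torus

open scoped Manifold ContDiff Topology
open Metric Set

noncomputable section

namespace Pool.Agent.Helper29.JSphere

section General

variable {E : Type*} [NormedAddCommGroup E] [NormedSpace ℝ E]
  {H : Type*} [TopologicalSpace H] (I : ModelWithCorners ℝ E H)
  {X : Type*} [TopologicalSpace X] [ChartedSpace H X] [IsManifold I ∞ X]

theorem chartJ_self (J : ∀ x : X, TangentSpace I x →L[ℝ] TangentSpace I x) (x : X) :
    chartJ I J x (extChartAt I x x) = J x := by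
  have h1 : ∀ v : E, chartJ I J x (extChartAt I x x) v = J x v := by
    intro v
    set K : X → E → E := fun y w => mfderiv I 𝓘(ℝ, E) (extChartAt I x) y (J y w) with hK
    have h2 : chartJ I J x (extChartAt I x x) v = K ((extChartAt I x).symm (extChartAt I x x))
      (mfderivWithin 𝓘(ℝ, E) I (extChartAt I x).symm (range I) (extChartAt I x x) v) := rfl
    rw [h2, extChartAt_to_inv x, mfderivWithin_range_extChartAt_symm]
    show mfderiv I 𝓘(ℝ, E) (extChartAt I x) x (J x v) = J x v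
    rw [mfderiv_extChartAt_self]
    rfl
  ext v
  exact h1 v

theorem contMDiffAt_chartSection {u : S2 → X} {ξ : ∀ z : S2, TangentSpace I (u z)}
    (hξ : IsSmoothSection I u ξ) (z₀ : S2) :
    ContMDiffAt (𝓡 2) 𝓘(ℝ, E) ∞ (chartSection I u ξ (u z₀)) z₀ := by
  have h := (Bundle.contMDiffAt_totalSpace.1 (hξ z₀))
  refine h.2.congr_of_eventuallyEq ?_
  have hc : ∀ᶠ z in 𝓝 z₀, u z ∈ (chartAt H (u z₀)).source :=
    h.1.continuousAt.eventually ((chartAt H (u z₀)).open_source.mem_nhds (mem_chart_source H _))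
  filter_upwards [hc] with z hz
  have h4 := TangentBundle.continuousLinearMapAt_trivializationAt (I := I) (x₀ := u z₀) hz
  have h5 : (trivializationAt E (TangentSpace I) (u z₀)).continuousLinearMapAt ℝ (u z) (ξ z)
      = (trivializationAt E (TangentSpace I) (u z₀) ⟨u z, ξ z⟩).2 := by
    rw [Bundle.Trivialization.continuousLinearMapAt_apply, Bundle.Trivialization.linearMapAt_apply,
      if_pos (by simpa using hz)]
  refine Eq.trans ?_ h5
  exact (congrArg (fun L => L (ξ z)) h4).symm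

theorem linearization_apply
    (J : ∀ x : X, TangentSpace I x →L[ℝ] TangentSpace I x) (u : S2 → X)
    (ξ : ∀ z : S2, TangentSpace I (u z)) (z : S2) (w : TangentSpace (𝓡 2) z) (A B C : E)
    (hA : A = mvfderiv (𝓡 2) (chartSection I u ξ (u z)) z w)
    (hB : B = J (u z) (mvfderiv (𝓡 2) (chartSection I u ξ (u z)) z (rotJ z w)))
    (hC : C = fderivWithin ℝ (chartJ I J (u z)) (range I) (extChartAt I (u z) (u z))
              (chartSection I u ξ (u z) z)
            (mvfderiv (𝓡 2) (chartMap I u (u z)) z (rotJ z w))) :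
    linearization I J u ξ z w = ((1 / 2 : ℝ) • (A + B + C) : E) := by
  unfold linearization
  rw [chartJ_self, mfderivWithin_range_extChartAt_symm, hA, hB, hC]
  rfl

end General

section Prod

variable {E : Type*} [NormedAddCommGroup E] [NormedSpace ℝ E]
  {H : Type*} [TopologicalSpace H] (I : ModelWithCorners ℝ E H) [I.Boundaryless]
  {M : Type*} [TopologicalSpace M] [ChartedSpace H M] [IsManifold I ∞ M]

omit [IsManifold I ∞ M] [I.Boundaryless] in
theorem extChartAt_prod_fst (x y : M × S2) :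
    (extChartAt (I.prod (𝓡 2)) x y).1 = extChartAt I x.1 y.1 := by
  rw [extChartAt_prod]; rfl

omit [IsManifold I ∞ M] [I.Boundaryless] in
theorem extChartAt_prod_symm_fst (x : M × S2) (e : E × EuclideanSpace ℝ (Fin 2)) :
    ((extChartAt (I.prod (𝓡 2)) x).symm e).1 = (extChartAt I x.1).symm e.1 := by
  rw [extChartAt_prod]; rfl

omit [IsManifold I ∞ M] in
theorem range_prod : range (I.prod (𝓡 2)) = univ := (I.prod (𝓡 2)).range_eq_univ

/-- first component of the differential of the inverse chart -/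
theorem symm_fst (x : M × S2) {e : E × EuclideanSpace ℝ (Fin 2)}
    (he : e ∈ (extChartAt (I.prod (𝓡 2)) x).target) (t : EuclideanSpace ℝ (Fin 2)) :
    (mfderivWithin 𝓘(ℝ, E × EuclideanSpace ℝ (Fin 2)) (I.prod (𝓡 2))
      (extChartAt (I.prod (𝓡 2)) x).symm (range (I.prod (𝓡 2))) e ((0 : E), t)).1 = (0 : E) := by
  have hd := mdifferentiableWithinAt_extChartAt_symm he
  rw [range_prod I] at hd ⊢
  rw [mfderivWithin_univ]
  rw [mdifferentiableWithinAt_univ] at hd
  have h1 : (mfderiv 𝓘(ℝ, E × EuclideanSpace ℝ (Fin 2)) (I.prod (𝓡 2))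
      (extChartAt (I.prod (𝓡 2)) x).symm e ((0 : E), t)).1 =
      mfderiv 𝓘(ℝ, E × EuclideanSpace ℝ (Fin 2)) I
        (fun e' => ((extChartAt (I.prod (𝓡 2)) x).symm e').1) e ((0 : E), t) := by
    have := mfderiv_comp_apply (I := 𝓘(ℝ, E × EuclideanSpace ℝ (Fin 2))) (I' := I.prod (𝓡 2))
      (I'' := I) (g := Prod.fst) (f := (extChartAt (I.prod (𝓡 2)) x).symm) e
      mdifferentiableAt_fst hd ((0 : E), t)
    rw [mfderiv_fst] at this
    exact this.symm
  rw [h1]
  have h2 : (fun e' => ((extChartAt (I.prod (𝓡 2)) x).symm e').1) =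
      (extChartAt I x.1).symm ∘ (Prod.fst : E × EuclideanSpace ℝ (Fin 2) → E) := by
    funext e'
    exact extChartAt_prod_symm_fst I x e'
  rw [h2]
  have he1 : e.1 ∈ (extChartAt I x.1).target := by
    rw [extChartAt_prod] at he
    exact he.1
  have hd1 : MDifferentiableAt 𝓘(ℝ, E) I (extChartAt I x.1).symm e.1 := by
    have := mdifferentiableWithinAt_extChartAt_symm he1
    rwa [I.range_eq_univ, mdifferentiableWithinAt_univ] at this
  have hd2 : MDifferentiableAt 𝓘(ℝ, E × EuclideanSpace ℝ (Fin 2)) 𝓘(ℝ, E)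
      (Prod.fst : E × EuclideanSpace ℝ (Fin 2) → E) e :=
    differentiableAt_fst.mdifferentiableAt
  have h3 := mfderiv_comp_apply (I := 𝓘(ℝ, E × EuclideanSpace ℝ (Fin 2))) (I' := 𝓘(ℝ, E))
      (I'' := I) (g := (extChartAt I x.1).symm)
      (f := (Prod.fst : E × EuclideanSpace ℝ (Fin 2) → E)) e hd1 hd2 ((0 : E), t)
  refine h3.trans ?_
  have h4 : mfderiv 𝓘(ℝ, E × EuclideanSpace ℝ (Fin 2)) 𝓘(ℝ, E)
      (Prod.fst : E × EuclideanSpace ℝ (Fin 2) → E) e ((0 : E), t) = (0 : E) := by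
    rw [mfderiv_eq_fderiv, fderiv_fst]
    rfl
  rw [h4]
  exact map_zero _

omit [I.Boundaryless] in
/-- first component of the differential of the chart -/
theorem chart_fst (x : M × S2) {y : M × S2} (hy : y ∈ (chartAt (ModelProd H (EuclideanSpace ℝ (Fin 2))) x).source)
    (v : TangentSpace (I.prod (𝓡 2)) y) :
    (mfderiv (I.prod (𝓡 2)) 𝓘(ℝ, E × EuclideanSpace ℝ (Fin 2))
      (extChartAt (I.prod (𝓡 2)) x) y v).1 = mfderiv I 𝓘(ℝ, E) (extChartAt I x.1) y.1 v.1 := by
  have hd := mdifferentiableAt_extChartAt (I := I.prod (𝓡 2)) hy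
  have hy1 : y.1 ∈ (chartAt H x.1).source := hy.1
  have hd1 := mdifferentiableAt_extChartAt (I := I) hy1
  have h1 := mfderiv_comp_apply (I := I.prod (𝓡 2)) (I' := 𝓘(ℝ, E × EuclideanSpace ℝ (Fin 2)))
      (I'' := 𝓘(ℝ, E)) (g := (Prod.fst : E × EuclideanSpace ℝ (Fin 2) → E))
      (f := extChartAt (I.prod (𝓡 2)) x) y differentiableAt_fst.mdifferentiableAt hd v
  have h2 := mfderiv_comp_apply (I := I.prod (𝓡 2)) (I' := I)
      (I'' := 𝓘(ℝ, E)) (g := extChartAt I x.1)
      (f := (Prod.fst : M × S2 → M)) y hd1 mdifferentiableAt_fst v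
  have h3 : (Prod.fst : E × EuclideanSpace ℝ (Fin 2) → E) ∘ (extChartAt (I.prod (𝓡 2)) x) =
      (extChartAt I x.1) ∘ (Prod.fst : M × S2 → M) := by
    funext y
    exact extChartAt_prod_fst I x y
  rw [h3, h2, mfderiv_fst, mfderiv_eq_fderiv, fderiv_fst] at h1
  exact h1.symm

/-- the first component of the chart expression of a vertical vector vanishes -/
theorem chartJ_vert
    (J : ∀ x : M × S2, TangentSpace (I.prod (𝓡 2)) x →L[ℝ] TangentSpace (I.prod (𝓡 2)) x)
    (hJ : ∀ (x : M × S2) (v : TangentSpace (I.prod (𝓡 2)) x), v.1 = 0 → (J x v).1 = 0)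
    (x : M × S2) {e : E × EuclideanSpace ℝ (Fin 2)} (he : e ∈ (extChartAt (I.prod (𝓡 2)) x).target)
    (t : EuclideanSpace ℝ (Fin 2)) :
    (chartJ (I.prod (𝓡 2)) J x e ((0 : E), t)).1 = (0 : E) := by
  have hy : (extChartAt (I.prod (𝓡 2)) x).symm e ∈
      (chartAt (ModelProd H (EuclideanSpace ℝ (Fin 2))) x).source := by
    have := (extChartAt (I.prod (𝓡 2)) x).map_target he
    rwa [extChartAt_source] at this
  have h1 := symm_fst I x he t
  have h2 := hJ ((extChartAt (I.prod (𝓡 2)) x).symm e)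
    (mfderivWithin 𝓘(ℝ, E × EuclideanSpace ℝ (Fin 2)) (I.prod (𝓡 2))
      (extChartAt (I.prod (𝓡 2)) x).symm (range (I.prod (𝓡 2))) e ((0 : E), t)) h1
  have h3 := chart_fst I x hy (J ((extChartAt (I.prod (𝓡 2)) x).symm e)
    (mfderivWithin 𝓘(ℝ, E × EuclideanSpace ℝ (Fin 2)) (I.prod (𝓡 2))
      (extChartAt (I.prod (𝓡 2)) x).symm (range (I.prod (𝓡 2))) e ((0 : E), t)))
  rw [h2] at h3
  refine Eq.trans h3 ?_
  exact map_zero _

omit [I.Boundaryless] in
theorem chartSection_fst (b : M) (ξ : ∀ z : S2, TangentSpace (I.prod (𝓡 2)) ((b, z) : M × S2))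
    (z₀ z : S2) (hz : z ∈ (chartAt (EuclideanSpace ℝ (Fin 2)) z₀).source) :
    (chartSection (I.prod (𝓡 2)) (fun z : S2 => ((b, z) : M × S2)) ξ (b, z₀) z).1
      = ((ξ z).1 : E) := by
  have hy : ((b, z) : M × S2) ∈
      (chartAt (ModelProd H (EuclideanSpace ℝ (Fin 2))) ((b, z₀) : M × S2)).source :=
    ⟨mem_chart_source H b, hz⟩
  have h1 := chart_fst I ((b, z₀) : M × S2) hy (ξ z)
  refine Eq.trans h1 ?_
  show mfderiv I 𝓘(ℝ, E) (extChartAt I b) b (ξ z).1 = (ξ z).1
  rw [mfderiv_extChartAt_self]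
  rfl

omit [I.Boundaryless] in
theorem chartSection_fst_eventually (b : M)
    (ξ : ∀ z : S2, TangentSpace (I.prod (𝓡 2)) ((b, z) : M × S2)) (z₀ : S2) :
    (fun z => (chartSection (I.prod (𝓡 2)) (fun z : S2 => ((b, z) : M × S2)) ξ (b, z₀) z).1)
      =ᶠ[𝓝 z₀] fun z => ((ξ z).1 : E) := by
  filter_upwards [(chartAt (EuclideanSpace ℝ (Fin 2)) z₀).open_source.mem_nhds
    (mem_chart_source _ z₀)] with z hz
  exact chartSection_fst I b ξ z₀ z hz

omit [I.Boundaryless] in
/-- the horizontal part of a smooth section is smooth -/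
theorem contMDiff_fst_section (b : M)
    (ξ : ∀ z : S2, TangentSpace (I.prod (𝓡 2)) ((b, z) : M × S2))
    (hξ : IsSmoothSection (I.prod (𝓡 2)) (fun z : S2 => ((b, z) : M × S2)) ξ) :
    ContMDiff (𝓡 2) 𝓘(ℝ, E) ∞ (fun z => ((ξ z).1 : E)) := by
  intro z₀
  have h1 := contMDiffAt_chartSection (I.prod (𝓡 2)) hξ z₀
  have h2 : ContMDiffAt (𝓡 2) 𝓘(ℝ, E) ∞
    (fun z => (chartSection (I.prod (𝓡 2)) (fun z : S2 => ((b, z) : M × S2)) ξ (b, z₀) z).1) z₀ :=
    (ContinuousLinearMap.fst ℝ E (EuclideanSpace ℝ (Fin 2))).contMDiff.contMDiffAt.comp z₀ h1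
  exact h2.congr_of_eventuallyEq (chartSection_fst_eventually I b ξ z₀).symm

/-- The horizontal part of the linearised operator at a vertical sphere. -/
theorem linearization_fst
    (J : ∀ x : M × S2, TangentSpace (I.prod (𝓡 2)) x →L[ℝ] TangentSpace (I.prod (𝓡 2)) x)
    (hJ : ∀ (x : M × S2) (v : TangentSpace (I.prod (𝓡 2)) x), v.1 = 0 → (J x v).1 = 0)
    (b : M) (ξ : ∀ z : S2, TangentSpace (I.prod (𝓡 2)) ((b, z) : M × S2))
    (hξ : IsSmoothSection (I.prod (𝓡 2)) (fun z : S2 => ((b, z) : M × S2)) ξ) (z : S2)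
    (w : TangentSpace (𝓡 2) z) (D : TangentSpace (𝓡 2) z →L[ℝ] E)
    (hD : D = mvfderiv (𝓡 2) (fun z => ((ξ z).1 : E)) z) (A B : E) (hA : A = D w)
    (hB : B = (J (b, z) ((D (rotJ z w) : E), (0 : EuclideanSpace ℝ (Fin 2)))).1) :
    (linearization (I.prod (𝓡 2)) J (fun z : S2 => ((b, z) : M × S2)) ξ z w).1
      = ((1 / 2 : ℝ) • (A + B) : E) := by
  set u : S2 → M × S2 := fun z => (b, z) with hu
  have hs := contMDiffAt_chartSection (I.prod (𝓡 2)) hξ z
  have hsd : MDifferentiableAt (𝓡 2) 𝓘(ℝ, E × EuclideanSpace ℝ (Fin 2))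
      (chartSection (I.prod (𝓡 2)) u ξ (u z)) z := hs.mdifferentiableAt (by simp)
  -- the first component of the derivative of the section
  have hDs : ∀ w : TangentSpace (𝓡 2) z,
      (mvfderiv (𝓡 2) (chartSection (I.prod (𝓡 2)) u ξ (u z)) z w).1 = D w := by
    intro w
    have h1 := mvfderiv_clm_apply (ContinuousLinearMap.fst ℝ E (EuclideanSpace ℝ (Fin 2))) hsd w
    rw [hD]
    refine h1.symm.trans ?_
    have h2 : mfderiv (𝓡 2) 𝓘(ℝ, E) (fun y => (ContinuousLinearMap.fst ℝ E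
        (EuclideanSpace ℝ (Fin 2))) (chartSection (I.prod (𝓡 2)) u ξ (u z) y)) z
        = mfderiv (𝓡 2) 𝓘(ℝ, E) (fun z => ((ξ z).1 : E)) z :=
      Filter.EventuallyEq.mfderiv_eq (chartSection_fst_eventually I b ξ z)
    exact congrArg (fun L => L w) h2
  -- derivative of the map
  have hm : (mvfderiv (𝓡 2) (chartMap (I.prod (𝓡 2)) u (u z)) z (rotJ z w)).1 = (0 : E) := by
    have hu1 : MDifferentiableAt (𝓡 2) (I.prod (𝓡 2)) u z :=
      mdifferentiableAt_const.prodMk mdifferentiableAt_id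
    have hu2 : MDifferentiableAt (𝓡 2) 𝓘(ℝ, E × EuclideanSpace ℝ (Fin 2))
        (chartMap (I.prod (𝓡 2)) u (u z)) z :=
      (mdifferentiableAt_extChartAt (I := I.prod (𝓡 2)) (mem_chart_source _ (u z))).comp z hu1
    have h1 := mvfderiv_clm_apply (ContinuousLinearMap.fst ℝ E (EuclideanSpace ℝ (Fin 2))) hu2
      (rotJ z w)
    refine h1.symm.trans ?_
    have h2 : (fun y => (ContinuousLinearMap.fst ℝ E (EuclideanSpace ℝ (Fin 2)))
        (chartMap (I.prod (𝓡 2)) u (u z) y)) = fun _ => extChartAt I b b := by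
      funext y
      exact extChartAt_prod_fst I (u z) (u y)
    rw [h2, mvfderiv_const]
    rfl
  set V : E × EuclideanSpace ℝ (Fin 2) :=
    mvfderiv (𝓡 2) (chartSection (I.prod (𝓡 2)) u ξ (u z)) z (rotJ z w) with hV
  set C : E × EuclideanSpace ℝ (Fin 2) :=
    fderivWithin ℝ (chartJ (I.prod (𝓡 2)) J (u z)) (range (I.prod (𝓡 2)))
      (extChartAt (I.prod (𝓡 2)) (u z) (u z))
              (chartSection (I.prod (𝓡 2)) u ξ (u z) z)
            (mvfderiv (𝓡 2) (chartMap (I.prod (𝓡 2)) u (u z)) z (rotJ z w)) with hC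
  have hC0 : C.1 = (0 : E) := by
    set w' : E × EuclideanSpace ℝ (Fin 2) :=
      mvfderiv (𝓡 2) (chartMap (I.prod (𝓡 2)) u (u z)) z (rotJ z w) with hw'
    set ζ : E × EuclideanSpace ℝ (Fin 2) := chartSection (I.prod (𝓡 2)) u ξ (u z) z with hζ
    set c : E × EuclideanSpace ℝ (Fin 2) := extChartAt (I.prod (𝓡 2)) (u z) (u z) with hc
    set K : E × EuclideanSpace ℝ (Fin 2) → (E × EuclideanSpace ℝ (Fin 2) →L[ℝ]
      E × EuclideanSpace ℝ (Fin 2)) := chartJ (I.prod (𝓡 2)) J (u z) with hK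
    have hw'' : w' = ((0 : E), w'.2) := Prod.ext hm rfl
    have e1 : C = fderiv ℝ K c ζ w' := by
      rw [hC, range_prod I, fderivWithin_univ]
    rw [e1]
    by_cases hKd : DifferentiableAt ℝ K c
    · set L : (E × EuclideanSpace ℝ (Fin 2) →L[ℝ] E × EuclideanSpace ℝ (Fin 2)) →L[ℝ] E :=
        (ContinuousLinearMap.fst ℝ E (EuclideanSpace ℝ (Fin 2))) ∘L
          (ContinuousLinearMap.apply ℝ (E × EuclideanSpace ℝ (Fin 2)) w') with hL
      have e2 : (fun e => L (K e)) =ᶠ[𝓝 c] fun _ => (0 : E) := by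
        filter_upwards [(isOpen_extChartAt_target (I := I.prod (𝓡 2)) (u z)).mem_nhds
          (mem_extChartAt_target (I := I.prod (𝓡 2)) (u z))] with e he
        show (K e w').1 = 0
        rw [hw'']
        exact chartJ_vert I J hJ (u z) he w'.2
      have e3 : fderiv ℝ (fun e => L (K e)) c = 0 := by
        rw [e2.fderiv_eq]; simp
      have e4 : fderiv ℝ (fun e => L (K e)) c = L ∘L fderiv ℝ K c := by
        exact (L.hasFDerivAt.comp c hKd.hasFDerivAt).fderiv
      have e5 : L (fderiv ℝ K c ζ) = 0 := by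
        have := congrArg (fun T => T ζ) (e4.symm.trans e3)
        exact this
      exact e5
    · rw [fderiv_zero_of_not_differentiableAt hKd]
      rfl
  have hJ1 : (J (b, z) V).1 = B := by
    have hV1 : V.1 = D (rotJ z w) := hDs (rotJ z w)
    have hVsum : V = ((V.1, (0 : EuclideanSpace ℝ (Fin 2))) : E × EuclideanSpace ℝ (Fin 2))
        + (((0 : E), V.2) : E × EuclideanSpace ℝ (Fin 2)) := by
      ext <;> simp
    have h1 : (J (b, z) V).1 = (J (b, z)
        ((V.1, (0 : EuclideanSpace ℝ (Fin 2))) : E × EuclideanSpace ℝ (Fin 2))).1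
        + (J (b, z) (((0 : E), V.2) : E × EuclideanSpace ℝ (Fin 2))).1 := by
      have h2 : J (b, z) V = J (b, z)
        ((V.1, (0 : EuclideanSpace ℝ (Fin 2))) : E × EuclideanSpace ℝ (Fin 2))
        + J (b, z) (((0 : E), V.2) : E × EuclideanSpace ℝ (Fin 2)) := by
        have h3 := congrArg (fun v => J (b, z) v) hVsum
        exact h3.trans (map_add (J (b, z)) _ _)
      exact congrArg Prod.fst h2
    rw [h1, hJ (b, z) (((0 : E), V.2) : E × EuclideanSpace ℝ (Fin 2)) rfl, hV1, hB]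
    exact add_zero _
  have hlin := linearization_apply (I.prod (𝓡 2)) J u ξ z w
    (mvfderiv (𝓡 2) (chartSection (I.prod (𝓡 2)) u ξ (u z)) z w) (J (u z) V) C rfl rfl rfl
  rw [hlin]
  show ((1 / 2 : ℝ) • ((mvfderiv (𝓡 2) (chartSection (I.prod (𝓡 2)) u ξ (u z)) z w).1
    + (J (b, z) V).1 + C.1) : E) = _
  rw [hDs, hC0, hJ1, ← hA, add_zero]

end Prod

end Pool.Agent.Helper29.JSphere
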