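import Mathlib

open MeasureTheory Set intervalIntegral
open scoped Real Topology

noncomputable section

namespace Pool.Agent.Helper29.JSphere

/-- the partial derivatives of a function on the plane -/
abbrev d1 (f : ℝ × ℝ → ℝ) (q : ℝ × ℝ) : ℝ := fderiv ℝ f q (1, 0)
abbrev d2 (f : ℝ × ℝ → ℝ) (q : ℝ × ℝ) : ℝ := fderiv ℝ f q (0, 1)

theorem hasDerivAt_d1 {f : ℝ × ℝ → ℝ} (hf : Differentiable ℝ f) (q : ℝ × ℝ) :
    HasDerivAt (fun t => f (t, q.2)) (d1 f q) q.1 := by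
  have h1 : HasDerivAt (fun t : ℝ => (t, q.2)) ((1 : ℝ), (0 : ℝ)) q.1 :=
    (hasDerivAt_id q.1).prodMk (hasDerivAt_const q.1 q.2)
  have h2 : HasFDerivAt f (fderiv ℝ f q) ((fun t : ℝ => (t, q.2)) q.1) := (hf q).hasFDerivAt
  exact h2.comp_hasDerivAt q.1 h1

theorem hasDerivAt_d2 {f : ℝ × ℝ → ℝ} (hf : Differentiable ℝ f) (q : ℝ × ℝ) :
    HasDerivAt (fun t => f (q.1, t)) (d2 f q) q.2 := by
  have h1 : HasDerivAt (fun t : ℝ => (q.1, t)) ((0 : ℝ), (1 : ℝ)) q.2 :=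
    (hasDerivAt_const q.2 q.1).prodMk (hasDerivAt_id q.2)
  have h2 : HasFDerivAt f (fderiv ℝ f q) ((fun t : ℝ => (q.1, t)) q.2) := (hf q).hasFDerivAt
  exact h2.comp_hasDerivAt q.2 h1

/-- The system of partial differential equations on the plane has no periodic solution. -/
theorem no_solution (f₁ f₂ f₃ f₄ : ℝ × ℝ → ℝ) (h₁ : ContDiff ℝ 1 f₁) (h₂ : ContDiff ℝ 1 f₂)
    (h₃ : ContDiff ℝ 1 f₃) (h₄ : ContDiff ℝ 1 f₄)
    (p₁ : ∀ t, f₁ (t, 2 * π) = f₁ (t, 0)) (p₂ : ∀ t, f₂ (t, 2 * π) = f₂ (t, 0))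
    (p₃ : ∀ t, f₃ (t, 2 * π) = f₃ (t, 0)) (p₄ : ∀ t, f₄ (t, 2 * π) = f₄ (t, 0))
    (e₁ : ∀ q : ℝ × ℝ, d2 f₁ q + Real.sin q.1 * (d1 f₃ q + 2 * Real.cos q.1 * d1 f₂ q)
      = -Real.sin q.1 * Real.sin q.2)
    (e₂ : ∀ q : ℝ × ℝ, d2 f₂ q + Real.sin q.1 * (d1 f₄ q - 2 * Real.cos q.1 * d1 f₁ q) = 0)
    (e₃ : ∀ q : ℝ × ℝ, d2 f₃ q - Real.sin q.1 * ((1 - 4 * Real.cos q.1 ^ 2) * d1 f₁ q
      + 2 * Real.cos q.1 * d1 f₄ q) = -Real.sin q.1 * Real.cos q.1 * Real.cos q.2)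
    (e₄ : ∀ q : ℝ × ℝ, d2 f₄ q - Real.sin q.1 * ((1 - 4 * Real.cos q.1 ^ 2) * d1 f₂ q
      - 2 * Real.cos q.1 * d1 f₃ q) = -2 * Real.cos q.1 * Real.sin q.1 * Real.sin q.2) :
    False := by
  -- the vector field
  set P : ℝ × ℝ → ℝ := fun q =>
    Real.sin q.1 * (Real.cos q.1 * Real.cos q.2 * f₁ q + Real.cos q.1 * Real.sin q.2 * f₂ q
      + Real.sin q.2 * f₃ q - Real.cos q.2 * f₄ q) with hP
  set Q : ℝ × ℝ → ℝ := fun q =>
    -(Real.cos q.1 ^ 2 - Real.sin q.1 ^ 2) * Real.sin q.2 * f₁ q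
      + (Real.cos q.1 ^ 2 - Real.sin q.1 ^ 2) * Real.cos q.2 * f₂ q
      + Real.cos q.1 * Real.cos q.2 * f₃ q + Real.cos q.1 * Real.sin q.2 * f₄ q with hQ
  have cP : ContDiff ℝ 1 P := by rw [hP]; fun_prop
  have cQ : ContDiff ℝ 1 Q := by rw [hQ]; fun_prop
  have D₁ := h₁.differentiable one_ne_zero
  have D₂ := h₂.differentiable one_ne_zero
  have D₃ := h₃.differentiable one_ne_zero
  have D₄ := h₄.differentiable one_ne_zero
  have dP : ∀ q, d1 P q = Real.cos q.1 * (Real.cos q.1 * Real.cos q.2 * f₁ q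
      + Real.cos q.1 * Real.sin q.2 * f₂ q + Real.sin q.2 * f₃ q - Real.cos q.2 * f₄ q)
      + Real.sin q.1 * (-Real.sin q.1 * Real.cos q.2 * f₁ q + Real.cos q.1 * Real.cos q.2 * d1 f₁ q
        - Real.sin q.1 * Real.sin q.2 * f₂ q + Real.cos q.1 * Real.sin q.2 * d1 f₂ q
        + Real.sin q.2 * d1 f₃ q - Real.cos q.2 * d1 f₄ q) := by
    intro q
    apply (hasDerivAt_d1 (cP.differentiable one_ne_zero) q).unique
    have hs := Real.hasDerivAt_sin q.1
    have hc := Real.hasDerivAt_cos q.1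
    have g₁ := hasDerivAt_d1 D₁ q
    have g₂ := hasDerivAt_d1 D₂ q
    have g₃ := hasDerivAt_d1 D₃ q
    have g₄ := hasDerivAt_d1 D₄ q
    refine (hs.mul ((((((hc.mul_const (Real.cos q.2)).mul g₁).add
      ((hc.mul_const (Real.sin q.2)).mul g₂)).add (g₃.const_mul (Real.sin q.2))).sub
      (g₄.const_mul (Real.cos q.2))))).congr_deriv ?_
    simp only [Pi.add_apply, Pi.sub_apply, Pi.mul_apply]
    ring
  have dQ : ∀ q, d2 Q q = -(Real.cos q.1 ^ 2 - Real.sin q.1 ^ 2) * (Real.cos q.2 * f₁ q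
        + Real.sin q.2 * d2 f₁ q)
      + (Real.cos q.1 ^ 2 - Real.sin q.1 ^ 2) * (-Real.sin q.2 * f₂ q + Real.cos q.2 * d2 f₂ q)
      + Real.cos q.1 * (-Real.sin q.2 * f₃ q + Real.cos q.2 * d2 f₃ q)
      + Real.cos q.1 * (Real.cos q.2 * f₄ q + Real.sin q.2 * d2 f₄ q) := by
    intro q
    apply (hasDerivAt_d2 (cQ.differentiable one_ne_zero) q).unique
    have hs := Real.hasDerivAt_sin q.2
    have hc := Real.hasDerivAt_cos q.2
    have g₁ := hasDerivAt_d2 D₁ q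
    have g₂ := hasDerivAt_d2 D₂ q
    have g₃ := hasDerivAt_d2 D₃ q
    have g₄ := hasDerivAt_d2 D₄ q
    refine (((((hs.const_mul (-(Real.cos q.1 ^ 2 - Real.sin q.1 ^ 2))).mul g₁).add
      ((hc.const_mul (Real.cos q.1 ^ 2 - Real.sin q.1 ^ 2)).mul g₂)).add
      ((hc.const_mul (Real.cos q.1)).mul g₃)).add
      ((hs.const_mul (Real.cos q.1)).mul g₄)).congr_deriv ?_
    ring
  have key : ∀ q, d1 P q + d2 Q q = -Real.sin q.1 * (Real.sin q.2 ^ 2
      + Real.cos q.1 ^ 2 * Real.cos q.2 ^ 2) := by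
    intro q
    rw [dP, dQ]
    have s1 := Real.sin_sq_add_cos_sq q.1
    linear_combination (-(Real.cos q.1 ^ 2 - Real.sin q.1 ^ 2) * Real.sin q.2) * e₁ q
      + ((Real.cos q.1 ^ 2 - Real.sin q.1 ^ 2) * Real.cos q.2) * e₂ q
      + (Real.cos q.1 * Real.cos q.2) * e₃ q + (Real.cos q.1 * Real.sin q.2) * e₄ q
      + (-2 * Real.sin q.1 * Real.cos q.1 * Real.cos q.2 * d1 f₁ q
        - 2 * Real.sin q.1 * Real.cos q.1 * Real.sin q.2 * d1 f₂ q
        - Real.sin q.1 * Real.sin q.2 * d1 f₃ q + Real.sin q.1 * Real.cos q.2 * d1 f₄ q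
        - Real.sin q.1 * Real.sin q.2 ^ 2) * s1
  have div := integral2_divergence_prod_of_hasFDerivAt P Q (fderiv ℝ P) (fderiv ℝ Q) 0 0 π (2 * π)
    cP.continuous.continuousOn cQ.continuous.continuousOn
    (fun x _ => (cP.differentiable one_ne_zero x).hasFDerivAt)
    (fun x _ => (cQ.differentiable one_ne_zero x).hasFDerivAt)
    (by
      have hcont : Continuous (fun x => fderiv ℝ P x (1, 0) + fderiv ℝ Q x (0, 1)) := by
        have c1 := cP.continuous_fderiv one_ne_zero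
        have c2 := cQ.continuous_fderiv one_ne_zero
        fun_prop
      exact hcont.continuousOn.integrableOn_compact (isCompact_uIcc.prod isCompact_uIcc))
  have hl : (∫ x in (0 : ℝ)..π, ∫ y in (0 : ℝ)..(2 * π),
      fderiv ℝ P (x, y) (1, 0) + fderiv ℝ Q (x, y) (0, 1)) = -(8 / 3 * π) := by
    have e : ∀ x : ℝ, (∫ y in (0 : ℝ)..(2 * π),
        fderiv ℝ P (x, y) (1, 0) + fderiv ℝ Q (x, y) (0, 1))
        = -π * Real.sin x - π * (Real.cos x ^ 2 * Real.sin x) := by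
      intro x
      have : ∀ y : ℝ, fderiv ℝ P (x, y) (1, 0) + fderiv ℝ Q (x, y) (0, 1) =
        (-Real.sin x) * Real.sin y ^ 2 + (-Real.sin x * Real.cos x ^ 2) * Real.cos y ^ 2 := by
        intro y
        have := key (x, y)
        simp only [d1, d2] at this
        rw [this]; ring
      simp_rw [this]
      rw [intervalIntegral.integral_add (Continuous.intervalIntegrable (by fun_prop) _ _)
          (Continuous.intervalIntegrable (by fun_prop) _ _),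
        intervalIntegral.integral_const_mul, intervalIntegral.integral_const_mul,
        integral_sin_sq, integral_cos_sq]
      simp
      ring
    simp_rw [e]
    have hd : ∀ x ∈ uIcc (0 : ℝ) π, HasDerivAt (fun x => π * Real.cos x + π / 3 * Real.cos x ^ 3)
        (-π * Real.sin x - π * (Real.cos x ^ 2 * Real.sin x)) x := by
      intro x _
      refine (((Real.hasDerivAt_cos x).const_mul π).add
        (((Real.hasDerivAt_cos x).pow 3).const_mul (π / 3))).congr_deriv ?_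
      simp
      ring
    rw [intervalIntegral.integral_eq_sub_of_hasDerivAt hd
      (Continuous.intervalIntegrable (by fun_prop) _ _)]
    simp
    ring
  rw [hl] at div
  have hb1 : ∀ x : ℝ, Q (x, 2 * π) = Q (x, 0) := by
    intro x
    simp only [hQ, p₁, p₂, p₃, p₄]
    simp
  have hb2 : ∀ y : ℝ, P (π, y) = 0 := by intro y; simp [hP]
  have hb3 : ∀ y : ℝ, P (0, y) = 0 := by intro y; simp [hP]
  simp only [hb1, hb2, hb3] at div
  simp at div

end Pool.Agent.Helper29.JSphere
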