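import Mathlib
import Pool.Agent.Helper29.JSphere.Torus

open scoped Manifold ContDiff Topology
open Metric Set

noncomputable section

namespace Pool.Agent.Helper29.JSphere

attribute [local instance] finrank_real_complex_fact'

section Circ

/-- The differential at `z` of the inclusion of the unit circle in the complex plane. -/
def dcirc (z : Circle) : TangentSpace (𝓡 1) z →L[ℝ] ℂ :=
  mvfderiv (𝓡 1) (fun w : Circle => (w : ℂ)) z

theorem contMDiff_circle_coe : ContMDiff (𝓡 1) 𝓘(ℝ, ℂ) ∞ (fun w : Circle => (w : ℂ)) :=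
  contMDiff_coe_sphere (E := ℂ)

theorem contMDiff_S2_coe :
    ContMDiff (𝓡 2) 𝓘(ℝ, EuclideanSpace ℝ (Fin 3)) ∞ ((↑) : S2 → EuclideanSpace ℝ (Fin 3)) :=
  haveI := Fact.mk (@finrank_euclideanSpace_fin ℝ _ 3)
  contMDiff_coe_sphere

theorem dcirc_injective (z : Circle) : Function.Injective (dcirc z) :=
  injective_mvfderiv_subtypeVal_sphere (E := ℂ) z

theorem range_dcirc (z : Circle) : (dcirc z).range = (Submodule.span ℝ {(z : ℂ)})ᗮ :=
  range_mvfderiv_subtypeVal (E := ℂ) z

theorem dcirc_orth (z : Circle) (v : TangentSpace (𝓡 1) z) :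
    (z : ℂ).re * (dcirc z v).re + (z : ℂ).im * (dcirc z v).im = 0 := by
  have h : dcirc z v ∈ (dcirc z).range := ⟨v, rfl⟩
  rw [range_dcirc, Submodule.mem_orthogonal_singleton_iff_inner_right] at h
  rw [Complex.inner] at h
  simp at h
  linarith

theorem circ_norm (z : Circle) : (z : ℂ).re * (z : ℂ).re + (z : ℂ).im * (z : ℂ).im = 1 := by
  have := Circle.normSq_coe z
  rw [Complex.normSq_apply] at this
  exact this

/-- every tangent vector of the circle is a multiple of the rotation field -/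
theorem dcirc_eq (z : Circle) (v : TangentSpace (𝓡 1) z) :
    ∃ r : ℝ, (dcirc z v).re = -r * (z : ℂ).im ∧ (dcirc z v).im = r * (z : ℂ).re := by
  refine ⟨(z : ℂ).re * (dcirc z v).im - (z : ℂ).im * (dcirc z v).re, ?_, ?_⟩
  · linear_combination (dcirc z v).re * (-circ_norm z) + (z : ℂ).re * dcirc_orth z v
  · linear_combination (dcirc z v).im * (-circ_norm z) + (z : ℂ).im * dcirc_orth z v

theorem exists_dcirc (z : Circle) (r : ℝ) :
    ∃ v, dcirc z v = r * (Complex.I * z) := by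
  have : (r : ℂ) * (Complex.I * z) ∈ (dcirc z).range := by
    rw [range_dcirc, Submodule.mem_orthogonal_singleton_iff_inner_right, Complex.inner]
    simp
    ring
  exact this

theorem S2_norm (z : S2) : z.1 0 * z.1 0 + z.1 1 * z.1 1 + z.1 2 * z.1 2 = 1 := by
  have h := z.2
  rw [mem_sphere_zero_iff_norm, EuclideanSpace.norm_eq, Real.sqrt_eq_one] at h
  simp [Fin.sum_univ_three, sq_abs] at h
  linarith

theorem S2_orth (z : S2) (v : TangentSpace (𝓡 2) z) :
    z.1 0 * incl z v 0 + z.1 1 * incl z v 1 + z.1 2 * incl z v 2 = 0 := by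
  have := inner_incl z v
  simp [PiLp.inner_apply, Fin.sum_univ_three] at this
  linarith

end Circ

/-- The ambient vector space. -/
abbrev Amb : Type := (ℂ × ℂ × ℂ × ℂ) × EuclideanSpace ℝ (Fin 3)

/-- The embedding of `T⁴ × S²` into the ambient vector space. -/
def emb (p : Torus × S2) : Amb :=
  (((p.1.1 : ℂ), (p.1.2.1 : ℂ), (p.1.2.2.1 : ℂ), (p.1.2.2.2 : ℂ)), (p.2 : EuclideanSpace ℝ (Fin 3)))

theorem contMDiff_emb : ContMDiff IX 𝓘(ℝ, Amb) ∞ emb := by
  apply ContMDiff.prodMk_space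
  · apply ContMDiff.prodMk_space
    · exact contMDiff_circle_coe.comp (contMDiff_fst.comp contMDiff_fst)
    · apply ContMDiff.prodMk_space
      · exact contMDiff_circle_coe.comp (contMDiff_fst.comp (contMDiff_snd.comp contMDiff_fst))
      · apply ContMDiff.prodMk_space
        · exact contMDiff_circle_coe.comp
            (contMDiff_fst.comp (contMDiff_snd.comp (contMDiff_snd.comp contMDiff_fst)))
        · exact contMDiff_circle_coe.comp
            (contMDiff_snd.comp (contMDiff_snd.comp (contMDiff_snd.comp contMDiff_fst)))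
  · exact contMDiff_S2_coe.comp contMDiff_snd

theorem mdiff_circle (z : Circle) : MDifferentiableAt (𝓡 1) 𝓘(ℝ, ℂ) (fun w : Circle => (w : ℂ)) z :=
  (contMDiff_circle_coe z).mdifferentiableAt (by simp)

theorem mdiff_S2 (z : S2) :
    MDifferentiableAt (𝓡 2) 𝓘(ℝ, EuclideanSpace ℝ (Fin 3)) ((↑) : S2 → EuclideanSpace ℝ (Fin 3)) z :=
  (contMDiff_S2_coe z).mdifferentiableAt (by simp)

/-- the embedding of the torus -/
def embT (q : Torus) : ℂ × ℂ × ℂ × ℂ := ((q.1 : ℂ), (q.2.1 : ℂ), (q.2.2.1 : ℂ), (q.2.2.2 : ℂ))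

theorem contMDiff_embT : ContMDiff IT 𝓘(ℝ, ℂ × ℂ × ℂ × ℂ) ∞ embT := by
  apply ContMDiff.prodMk_space
  · exact contMDiff_circle_coe.comp contMDiff_fst
  · apply ContMDiff.prodMk_space
    · exact contMDiff_circle_coe.comp (contMDiff_fst.comp contMDiff_snd)
    · apply ContMDiff.prodMk_space
      · exact contMDiff_circle_coe.comp (contMDiff_fst.comp (contMDiff_snd.comp contMDiff_snd))
      · exact contMDiff_circle_coe.comp (contMDiff_snd.comp (contMDiff_snd.comp contMDiff_snd))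

theorem mvfderiv_embT (q : Torus) (v : TangentSpace IT q) :
    mvfderiv IT embT q v = (dcirc q.1 v.1, dcirc q.2.1 v.2.1, dcirc q.2.2.1 v.2.2.1,
      dcirc q.2.2.2 v.2.2.2) := by
  have d4 : ∀ q : Circle × Circle, MDifferentiableAt ((𝓡 1).prod (𝓡 1)) 𝓘(ℝ, ℂ × ℂ)
      (fun q : Circle × Circle => ((q.1 : ℂ), (q.2 : ℂ))) q := fun q =>
    MDifferentiableAt.prodMk_space
      ((mdiff_circle q.1).comp q mdifferentiableAt_fst)
      ((mdiff_circle q.2).comp q mdifferentiableAt_snd)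
  have d3 : ∀ q : Circle × Circle × Circle, MDifferentiableAt ((𝓡 1).prod ((𝓡 1).prod (𝓡 1)))
      𝓘(ℝ, ℂ × ℂ × ℂ)
      (fun q : Circle × Circle × Circle => ((q.1 : ℂ), (q.2.1 : ℂ), (q.2.2 : ℂ))) q := fun q =>
    MDifferentiableAt.prodMk_space
      ((mdiff_circle q.1).comp q mdifferentiableAt_fst)
      ((d4 q.2).comp q mdifferentiableAt_snd)
  have h1 : mvfderiv IT embT q v = (dcirc q.1 v.1,
      mvfderiv ((𝓡 1).prod ((𝓡 1).prod (𝓡 1)))
        (fun q : Circle × Circle × Circle => ((q.1 : ℂ), (q.2.1 : ℂ), (q.2.2 : ℂ))) q.2 v.2) := by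
    have := mvfderiv_prodMk_apply (I := IT) (f := fun q : Torus => (q.1 : ℂ))
      (g := fun q : Torus => ((q.2.1 : ℂ), (q.2.2.1 : ℂ), (q.2.2.2 : ℂ))) (x := q)
      ((mdiff_circle q.1).comp q mdifferentiableAt_fst)
      ((d3 q.2).comp q mdifferentiableAt_snd) v
    refine this.trans ?_
    congr 1
    · exact mvfderiv_fst_apply (g := fun w : Circle => (w : ℂ)) (mdiff_circle q.1) v
    · exact mvfderiv_snd_apply (d3 q.2) v
  have h2 : ∀ (q : Circle × Circle × Circle) (v : TangentSpace ((𝓡 1).prod ((𝓡 1).prod (𝓡 1))) q),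
      mvfderiv ((𝓡 1).prod ((𝓡 1).prod (𝓡 1)))
        (fun q : Circle × Circle × Circle => ((q.1 : ℂ), (q.2.1 : ℂ), (q.2.2 : ℂ))) q v =
      (dcirc q.1 v.1, mvfderiv ((𝓡 1).prod (𝓡 1))
        (fun q : Circle × Circle => ((q.1 : ℂ), (q.2 : ℂ))) q.2 v.2) := by
    intro q v
    have := mvfderiv_prodMk_apply (I := (𝓡 1).prod ((𝓡 1).prod (𝓡 1)))
      (f := fun q : Circle × Circle × Circle => (q.1 : ℂ))
      (g := fun q : Circle × Circle × Circle => ((q.2.1 : ℂ), (q.2.2 : ℂ))) (x := q)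
      ((mdiff_circle q.1).comp q mdifferentiableAt_fst)
      ((d4 q.2).comp q mdifferentiableAt_snd) v
    refine this.trans ?_
    congr 1
    · exact mvfderiv_fst_apply (g := fun w : Circle => (w : ℂ)) (mdiff_circle q.1) v
    · exact mvfderiv_snd_apply (d4 q.2) v
  have h3 : ∀ (q : Circle × Circle) (v : TangentSpace ((𝓡 1).prod (𝓡 1)) q),
      mvfderiv ((𝓡 1).prod (𝓡 1))
        (fun q : Circle × Circle => ((q.1 : ℂ), (q.2 : ℂ))) q v =
      (dcirc q.1 v.1, dcirc q.2 v.2) := by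
    intro q v
    have := mvfderiv_prodMk_apply (I := (𝓡 1).prod (𝓡 1))
      (f := fun q : Circle × Circle => (q.1 : ℂ))
      (g := fun q : Circle × Circle => (q.2 : ℂ)) (x := q)
      ((mdiff_circle q.1).comp q mdifferentiableAt_fst)
      ((mdiff_circle q.2).comp q mdifferentiableAt_snd) v
    refine this.trans ?_
    congr 1
    · exact mvfderiv_fst_apply (g := fun w : Circle => (w : ℂ)) (mdiff_circle q.1) v
    · exact mvfderiv_snd_apply (g := fun w : Circle => (w : ℂ)) (mdiff_circle q.2) v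
  rw [h1, h2, h3]

theorem mvfderiv_emb (p : Torus × S2) (v : TangentSpace IX p) :
    mvfderiv IX emb p v = (mvfderiv IT embT p.1 v.1, incl p.2 v.2) := by
  have hT : MDifferentiableAt IT 𝓘(ℝ, ℂ × ℂ × ℂ × ℂ) embT p.1 :=
    (contMDiff_embT p.1).mdifferentiableAt (by simp)
  have := mvfderiv_prodMk_apply (I := IX) (f := fun p : Torus × S2 => embT p.1)
    (g := fun p : Torus × S2 => (p.2 : EuclideanSpace ℝ (Fin 3))) (x := p)
    (hT.comp p mdifferentiableAt_fst) ((mdiff_S2 p.2).comp p mdifferentiableAt_snd) v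
  refine this.trans ?_
  congr 1
  · exact mvfderiv_fst_apply hT v
  · exact mvfderiv_snd_apply (g := ((↑) : S2 → EuclideanSpace ℝ (Fin 3))) (mdiff_S2 p.2) v

end Pool.Agent.Helper29.JSphere
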