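import Mathlib
import Pool.Agent.Helper29.JSphere.Torus

open scoped Manifold ContDiff Topology
open Metric Set

noncomputable section

namespace Pool.Agent.Helper29.JSphere

section Pull

variable {E : Type*} [NormedAddCommGroup E] [NormedSpace ℝ E]
  {H : Type*} [TopologicalSpace H] {I : ModelWithCorners ℝ E H} [I.Boundaryless]
  {X : Type*} [TopologicalSpace X] [ChartedSpace H X] [IsManifold I ∞ X]
  {V : Type*} [NormedAddCommGroup V] [NormedSpace ℝ V]

/-- The pull-back to `X` of a 2-form on a vector space. -/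
def pullForm (I : ModelWithCorners ℝ E H) (iota : X → V) (Om : V → V [⋀^Fin 2]→L[ℝ] ℝ) (x : X) :
    TangentSpace I x [⋀^Fin 2]→L[ℝ] ℝ :=
  (Om (iota x)).compContinuousLinearMap (mvfderiv I iota x)

theorem chartForm_pullForm {iota : X → V} (hι : ContMDiff I 𝓘(ℝ, V) ∞ iota)
    (Om : V → V [⋀^Fin 2]→L[ℝ] ℝ) (x₀ : X) {e : E} (he : e ∈ (extChartAt I x₀).target) :
    chartForm I (pullForm I iota Om) x₀ e =
      (Om (iota ((extChartAt I x₀).symm e))).compContinuousLinearMap
        (fderiv ℝ (fun e' => iota ((extChartAt I x₀).symm e')) e) := by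
  have hcomp : fderiv ℝ (fun e' => iota ((extChartAt I x₀).symm e')) e =
      (mvfderiv I iota ((extChartAt I x₀).symm e)) ∘L
        (mfderivWithin 𝓘(ℝ, E) I (extChartAt I x₀).symm (range I) e) := by
    have h1 : mfderivWithin 𝓘(ℝ, E) 𝓘(ℝ, V) (iota ∘ (extChartAt I x₀).symm) (range I) e =
      (mfderiv I 𝓘(ℝ, V) iota ((extChartAt I x₀).symm e)) ∘L
        (mfderivWithin 𝓘(ℝ, E) I (extChartAt I x₀).symm (range I) e) :=
      mfderiv_comp_mfderivWithin e ((hι _).mdifferentiableAt (by simp))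
        (mdifferentiableWithinAt_extChartAt_symm he)
        (by rw [I.range_eq_univ]; exact uniqueMDiffWithinAt_univ _)
    rw [I.range_eq_univ, mfderivWithin_univ, mfderiv_eq_fderiv] at h1
    rw [I.range_eq_univ]
    exact h1
  rw [hcomp]
  rfl

theorem contDiffAt_comp_symm {iota : X → V} (hι : ContMDiff I 𝓘(ℝ, V) ∞ iota) (x₀ : X) {e : E}
    (he : e ∈ (extChartAt I x₀).target) :
    ContDiffAt ℝ ∞ (fun e' => iota ((extChartAt I x₀).symm e')) e := by
  have h1 : ContMDiffOn 𝓘(ℝ, E) I ∞ (extChartAt I x₀).symm (extChartAt I x₀).target :=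
    contMDiffOn_extChartAt_symm x₀
  have h2 : ContMDiffOn 𝓘(ℝ, E) 𝓘(ℝ, V) ∞ (iota ∘ (extChartAt I x₀).symm)
      (extChartAt I x₀).target := hι.comp_contMDiffOn h1
  have h3 := (contMDiffOn_iff_contDiffOn.1 h2)
  exact h3.contDiffAt ((isOpen_extChartAt_target x₀).mem_nhds he)

theorem extDeriv_chartForm_pullForm {iota : X → V} (hι : ContMDiff I 𝓘(ℝ, V) ∞ iota)
    {Om : V → V [⋀^Fin 2]→L[ℝ] ℝ} (hOm : Differentiable ℝ Om) (x₀ : X) {e : E}
    (he : e ∈ (extChartAt I x₀).target) :
    extDerivWithin (chartForm I (pullForm I iota Om) x₀) (range I) e =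
      (extDeriv Om (iota ((extChartAt I x₀).symm e))).compContinuousLinearMap
        (fderiv ℝ (fun e' => iota ((extChartAt I x₀).symm e')) e) := by
  rw [I.range_eq_univ, extDerivWithin_univ]
  have h1 : chartForm I (pullForm I iota Om) x₀ =ᶠ[𝓝 e] fun e =>
      (Om (iota ((extChartAt I x₀).symm e))).compContinuousLinearMap
        (fderiv ℝ (fun e' => iota ((extChartAt I x₀).symm e')) e) := by
    filter_upwards [(isOpen_extChartAt_target x₀).mem_nhds he] with e' he'
    exact chartForm_pullForm hι Om x₀ he'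
  rw [Filter.EventuallyEq.extDeriv_eq h1]
  exact extDeriv_pullback (f := fun e' => iota ((extChartAt I x₀).symm e')) (r := ∞)
    (hOm _) (contDiffAt_comp_symm hι x₀ he)
    (by simp only [minSmoothness_of_isRCLikeNormedField]; exact WithTop.coe_le_coe.2 (le_top : (2 : ℕ∞) ≤ ⊤))

/-- the differential of the composition with a chart inverse takes values in the image of the
differential of `iota` -/
theorem fderiv_comp_symm_mem {iota : X → V} (hι : ContMDiff I 𝓘(ℝ, V) ∞ iota) (x₀ : X) {e : E}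
    (he : e ∈ (extChartAt I x₀).target) (a : E) :
    ∃ v : TangentSpace I ((extChartAt I x₀).symm e),
      fderiv ℝ (fun e' => iota ((extChartAt I x₀).symm e')) e a
        = mvfderiv I iota ((extChartAt I x₀).symm e) v := by
  refine ⟨mfderivWithin 𝓘(ℝ, E) I (extChartAt I x₀).symm (range I) e a, ?_⟩
  have h1 : mfderivWithin 𝓘(ℝ, E) 𝓘(ℝ, V) (iota ∘ (extChartAt I x₀).symm) (range I) e =
      (mfderiv I 𝓘(ℝ, V) iota ((extChartAt I x₀).symm e)) ∘L
        (mfderivWithin 𝓘(ℝ, E) I (extChartAt I x₀).symm (range I) e) :=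
      mfderiv_comp_mfderivWithin e ((hι _).mdifferentiableAt (by simp))
        (mdifferentiableWithinAt_extChartAt_symm he)
        (by rw [I.range_eq_univ]; exact uniqueMDiffWithinAt_univ _)
  rw [I.range_eq_univ, mfderivWithin_univ, mfderiv_eq_fderiv] at h1
  rw [I.range_eq_univ]
  exact congrArg (fun L => L a) h1

theorem contDiffOn_chartForm_pullForm {iota : X → V} (hι : ContMDiff I 𝓘(ℝ, V) ∞ iota)
    {k : ℕ} {A B : Fin k → V → V →L[ℝ] ℝ} (hA : ∀ i, ContDiff ℝ ∞ (A i))
    (hB : ∀ i, ContDiff ℝ ∞ (B i)) (x₀ : X) :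
    ContDiffOn ℝ ∞ (chartForm I (pullForm I iota (fun p => ∑ i, wedge (A i p) (B i p))) x₀)
      (extChartAt I x₀).target := by
  have hf : ContDiffOn ℝ ∞ (fun e' => iota ((extChartAt I x₀).symm e')) (extChartAt I x₀).target :=
    fun e he => (contDiffAt_comp_symm hι x₀ he).contDiffWithinAt
  have hdf : ContDiffOn ℝ ∞ (fderiv ℝ (fun e' => iota ((extChartAt I x₀).symm e')))
      (extChartAt I x₀).target :=
    hf.fderiv_of_isOpen (isOpen_extChartAt_target x₀) le_rfl
  have h1 : ContDiffOn ℝ ∞ (fun e => ∑ i,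
      wedge ((A i (iota ((extChartAt I x₀).symm e))) ∘L
          (fderiv ℝ (fun e' => iota ((extChartAt I x₀).symm e')) e))
        ((B i (iota ((extChartAt I x₀).symm e))) ∘L
          (fderiv ℝ (fun e' => iota ((extChartAt I x₀).symm e')) e)))
      (extChartAt I x₀).target := by
    apply ContDiffOn.sum
    intro i _
    apply contDiffOn_wedge
    · exact ((hA i).comp_contDiffOn hf).clm_comp hdf
    · exact ((hB i).comp_contDiffOn hf).clm_comp hdf
  refine h1.congr ?_
  intro e he
  rw [chartForm_pullForm hι _ x₀ he]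
  ext v
  simp [wedge_apply']

end Pull

end Pool.Agent.Helper29.JSphere
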