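import Mathlib
import Pool.Agent.Helper29.JSphere.Embed
import Pool.Agent.Helper29.JSphere.Pull

open scoped Manifold ContDiff Topology
open Metric Set

noncomputable section

namespace Pool.Agent.Helper29.JSphere

section Coordinates

/-- first component -/
abbrev pT : Amb →L[ℝ] (ℂ × ℂ × ℂ × ℂ) :=
  ContinuousLinearMap.fst ℝ (ℂ × ℂ × ℂ × ℂ) (EuclideanSpace ℝ (Fin 3))

/-- second component -/
abbrev pS : Amb →L[ℝ] (EuclideanSpace ℝ (Fin 3)) :=
  ContinuousLinearMap.snd ℝ (ℂ × ℂ × ℂ × ℂ) (EuclideanSpace ℝ (Fin 3))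

/-- the four complex coordinates -/
def w1 : Amb →L[ℝ] ℂ := (ContinuousLinearMap.fst ℝ ℂ (ℂ × ℂ × ℂ)) ∘L pT
def w2 : Amb →L[ℝ] ℂ :=
  (ContinuousLinearMap.fst ℝ ℂ (ℂ × ℂ)) ∘L (ContinuousLinearMap.snd ℝ ℂ (ℂ × ℂ × ℂ)) ∘L pT
def w3 : Amb →L[ℝ] ℂ :=
  (ContinuousLinearMap.fst ℝ ℂ ℂ) ∘L (ContinuousLinearMap.snd ℝ ℂ (ℂ × ℂ)) ∘L
    (ContinuousLinearMap.snd ℝ ℂ (ℂ × ℂ × ℂ)) ∘L pT
def w4 : Amb →L[ℝ] ℂ :=
  (ContinuousLinearMap.snd ℝ ℂ ℂ) ∘L (ContinuousLinearMap.snd ℝ ℂ (ℂ × ℂ)) ∘L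
    (ContinuousLinearMap.snd ℝ ℂ (ℂ × ℂ × ℂ)) ∘L pT

@[simp] theorem w1_apply (p : Amb) : w1 p = p.1.1 := rfl
@[simp] theorem w2_apply (p : Amb) : w2 p = p.1.2.1 := rfl
@[simp] theorem w3_apply (p : Amb) : w3 p = p.1.2.2.1 := rfl
@[simp] theorem w4_apply (p : Amb) : w4 p = p.1.2.2.2 := rfl

/-- the three real coordinates -/
def yc (i : Fin 3) : Amb →L[ℝ] ℝ := (EuclideanSpace.proj i) ∘L pS

@[simp] theorem yc_apply (i : Fin 3) (p : Amb) : yc i p = p.2 i := rfl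

/-- the real and imaginary parts of the complex coordinates -/
def rew (w : Amb →L[ℝ] ℂ) : Amb →L[ℝ] ℝ := Complex.reCLM ∘L w
def imw (w : Amb →L[ℝ] ℂ) : Amb →L[ℝ] ℝ := Complex.imCLM ∘L w

@[simp] theorem rew_apply (w : Amb →L[ℝ] ℂ) (p : Amb) : rew w p = (w p).re := rfl
@[simp] theorem imw_apply (w : Amb →L[ℝ] ℂ) (p : Amb) : imw w p = (w p).im := rfl

/-- the angular form `c ds - s dc` of a complex coordinate, linear in the base point -/
def ang (w : Amb →L[ℝ] ℂ) : Amb →L[ℝ] Amb →L[ℝ] ℝ :=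
  (rew w).smulRight (imw w) - (imw w).smulRight (rew w)

@[simp] theorem ang_apply (w : Amb →L[ℝ] ℂ) (p v : Amb) :
    ang w p v = (w p).re * (w v).im - (w p).im * (w v).re := by
  simp [ang]

end Coordinates

section Form

/-- left factors of the seven wedge products -/
def FA : Fin 7 → Amb → Amb →L[ℝ] ℝ := ![
  fun p => ang w1 p,
  fun p => ang w2 p,
  fun p => (4 * yc 2 p) • ang w1 p,
  fun _ => (4 : ℝ) • yc 2,
  fun p => (4 * yc 0 p) • yc 1,
  fun p => (4 * yc 1 p) • yc 2,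
  fun p => (4 * yc 2 p) • yc 0]

/-- right factors of the seven wedge products -/
def FB : Fin 7 → Amb → Amb →L[ℝ] ℝ := ![
  fun p => ang w4 p,
  fun p => ang w3 p,
  fun p => (rew w1 p) • ang w2 p - (imw w1 p) • ang w3 p,
  fun p => (imw w1 p) • ang w2 p + (rew w1 p) • ang w3 p,
  fun _ => yc 2,
  fun _ => yc 0,
  fun _ => yc 1]

/-- The ambient 2-form. -/
def OmegaAmb (p : Amb) : Amb [⋀^Fin 2]→L[ℝ] ℝ := ∑ i, wedge (FA i p) (FB i p)

theorem contDiff_FA (i : Fin 7) : ContDiff ℝ ∞ (FA i) := by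
  fin_cases i <;> simp [FA] <;> fun_prop

theorem contDiff_FB (i : Fin 7) : ContDiff ℝ ∞ (FB i) := by
  fin_cases i
  · exact (by fun_prop : ContDiff ℝ ∞ (fun p => ang w4 p))
  · exact (by fun_prop : ContDiff ℝ ∞ (fun p => ang w3 p))
  · exact (by fun_prop : ContDiff ℝ ∞ (fun p => (rew w1 p) • ang w2 p - (imw w1 p) • ang w3 p))
  · exact (by fun_prop : ContDiff ℝ ∞ (fun p => (imw w1 p) • ang w2 p + (rew w1 p) • ang w3 p))
  · exact contDiff_const
  · exact contDiff_const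
  · exact contDiff_const

/-- The value of the ambient form, as a polynomial. -/
theorem OmegaAmb_apply (p v w : Amb) : OmegaAmb p ![v, w] =
    (ang w1 p v * ang w4 p w - ang w1 p w * ang w4 p v)
    + (ang w2 p v * ang w3 p w - ang w2 p w * ang w3 p v)
    + 4 * p.2 2 * (ang w1 p v * (p.1.1.re * ang w2 p w - p.1.1.im * ang w3 p w)
        - ang w1 p w * (p.1.1.re * ang w2 p v - p.1.1.im * ang w3 p v))
    + 4 * (v.2 2 * (p.1.1.im * ang w2 p w + p.1.1.re * ang w3 p w)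
        - w.2 2 * (p.1.1.im * ang w2 p v + p.1.1.re * ang w3 p v))
    + 4 * (p.2 0 * (v.2 1 * w.2 2 - w.2 1 * v.2 2)
        + p.2 1 * (v.2 2 * w.2 0 - w.2 2 * v.2 0)
        + p.2 2 * (v.2 0 * w.2 1 - w.2 0 * v.2 1)) := by
  simp only [OmegaAmb, Fin.sum_univ_succ, FA, FB]
  simp
  ring

theorem contDiff_OmegaAmb : ContDiff ℝ ∞ OmegaAmb := by
  have : ∀ i, ContDiff ℝ ∞ (fun p => wedge (FA i p) (FB i p)) := fun i => by
    have := contDiffOn_wedge (contDiff_FA i).contDiffOn (contDiff_FB i).contDiffOn (s := univ)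
    exact contDiffOn_univ.1 this
  exact ContDiff.sum fun i _ => this i

/-- The derivative of the value of the ambient form in the direction `a`. -/
def DOm (p a b c : Amb) : ℝ :=
    (ang w1 a b * ang w4 p c + ang w1 p b * ang w4 a c
      - ang w1 a c * ang w4 p b - ang w1 p c * ang w4 a b)
    + (ang w2 a b * ang w3 p c + ang w2 p b * ang w3 a c
      - ang w2 a c * ang w3 p b - ang w2 p c * ang w3 a b)
    + 4 * a.2 2 * (ang w1 p b * (p.1.1.re * ang w2 p c - p.1.1.im * ang w3 p c)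
        - ang w1 p c * (p.1.1.re * ang w2 p b - p.1.1.im * ang w3 p b))
    + 4 * p.2 2 * (ang w1 a b * (p.1.1.re * ang w2 p c - p.1.1.im * ang w3 p c)
        - ang w1 a c * (p.1.1.re * ang w2 p b - p.1.1.im * ang w3 p b))
    + 4 * p.2 2 * (ang w1 p b * (a.1.1.re * ang w2 p c + p.1.1.re * ang w2 a c
          - a.1.1.im * ang w3 p c - p.1.1.im * ang w3 a c)
        - ang w1 p c * (a.1.1.re * ang w2 p b + p.1.1.re * ang w2 a b
          - a.1.1.im * ang w3 p b - p.1.1.im * ang w3 a b))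
    + 4 * (b.2 2 * (a.1.1.im * ang w2 p c + p.1.1.im * ang w2 a c
          + a.1.1.re * ang w3 p c + p.1.1.re * ang w3 a c)
        - c.2 2 * (a.1.1.im * ang w2 p b + p.1.1.im * ang w2 a b
          + a.1.1.re * ang w3 p b + p.1.1.re * ang w3 a b))
    + 4 * (a.2 0 * (b.2 1 * c.2 2 - c.2 1 * b.2 2)
        + a.2 1 * (b.2 2 * c.2 0 - c.2 2 * b.2 0)
        + a.2 2 * (b.2 0 * c.2 1 - c.2 0 * b.2 1))

theorem hasDerivAt_aff (x a : ℝ) : HasDerivAt (fun t : ℝ => x + t * a) a 0 := by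
  simpa using ((hasDerivAt_id (0 : ℝ)).mul_const a).const_add x

theorem fderiv_OmegaAmb (p a b c : Amb) :
    fderiv ℝ (fun x => OmegaAmb x ![b, c]) p a = DOm p a b c := by
  have hd : DifferentiableAt ℝ (fun x => OmegaAmb x ![b, c]) p := by
    have h1 : DifferentiableAt ℝ OmegaAmb p := contDiff_OmegaAmb.differentiable (by simp) p
    have := h1.continuousAlternatingMap_apply_const ![b, c]
    exact this
  have h2 : HasDerivAt (fun t : ℝ => OmegaAmb (p + t • a) ![b, c])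
      (fderiv ℝ (fun x => OmegaAmb x ![b, c]) p a) 0 := by
    have hl : HasDerivAt (fun t : ℝ => p + t • a) a 0 := by
      simpa using ((hasDerivAt_id (0 : ℝ)).smul_const a).const_add p
    have hd' : HasFDerivAt (fun x => OmegaAmb x ![b, c])
      (fderiv ℝ (fun x => OmegaAmb x ![b, c]) p) (p + (0 : ℝ) • a) := by
      simpa using hd.hasFDerivAt
    exact hd'.comp_hasDerivAt (0 : ℝ) hl
  have h3 : HasDerivAt (fun t : ℝ => OmegaAmb (p + t • a) ![b, c]) (DOm p a b c) 0 := by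
    have e : ∀ t : ℝ, OmegaAmb (p + t • a) ![b, c] =
      ((ang w1 p b + t * ang w1 a b) * (ang w4 p c + t * ang w4 a c)
        - (ang w1 p c + t * ang w1 a c) * (ang w4 p b + t * ang w4 a b))
      + ((ang w2 p b + t * ang w2 a b) * (ang w3 p c + t * ang w3 a c)
        - (ang w2 p c + t * ang w2 a c) * (ang w3 p b + t * ang w3 a b))
      + 4 * (p.2 2 + t * a.2 2) * ((ang w1 p b + t * ang w1 a b) *
          ((p.1.1.re + t * a.1.1.re) * (ang w2 p c + t * ang w2 a c)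
            - (p.1.1.im + t * a.1.1.im) * (ang w3 p c + t * ang w3 a c))
        - (ang w1 p c + t * ang w1 a c) *
          ((p.1.1.re + t * a.1.1.re) * (ang w2 p b + t * ang w2 a b)
            - (p.1.1.im + t * a.1.1.im) * (ang w3 p b + t * ang w3 a b)))
      + 4 * (b.2 2 * ((p.1.1.im + t * a.1.1.im) * (ang w2 p c + t * ang w2 a c)
            + (p.1.1.re + t * a.1.1.re) * (ang w3 p c + t * ang w3 a c))
        - c.2 2 * ((p.1.1.im + t * a.1.1.im) * (ang w2 p b + t * ang w2 a b)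
            + (p.1.1.re + t * a.1.1.re) * (ang w3 p b + t * ang w3 a b)))
      + 4 * ((p.2 0 + t * a.2 0) * (b.2 1 * c.2 2 - c.2 1 * b.2 2)
        + (p.2 1 + t * a.2 1) * (b.2 2 * c.2 0 - c.2 2 * b.2 0)
        + (p.2 2 + t * a.2 2) * (b.2 0 * c.2 1 - c.2 0 * b.2 1)) := by
      intro t
      rw [OmegaAmb_apply]
      simp
    simp_rw [e]
    have L := hasDerivAt_aff
    refine (((((((L (ang w1 p b) (ang w1 a b)).mul (L (ang w4 p c) (ang w4 a c))).sub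
      ((L (ang w1 p c) (ang w1 a c)).mul (L (ang w4 p b) (ang w4 a b)))).add
      (((L (ang w2 p b) (ang w2 a b)).mul (L (ang w3 p c) (ang w3 a c))).sub
      ((L (ang w2 p c) (ang w2 a c)).mul (L (ang w3 p b) (ang w3 a b))))).add
      (((L (p.2 2) (a.2 2)).const_mul 4).mul (((L (ang w1 p b) (ang w1 a b)).mul
        (((L p.1.1.re a.1.1.re).mul (L (ang w2 p c) (ang w2 a c))).sub
          ((L p.1.1.im a.1.1.im).mul (L (ang w3 p c) (ang w3 a c))))).sub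
        ((L (ang w1 p c) (ang w1 a c)).mul
        (((L p.1.1.re a.1.1.re).mul (L (ang w2 p b) (ang w2 a b))).sub
          ((L p.1.1.im a.1.1.im).mul (L (ang w3 p b) (ang w3 a b)))))))).add
      (((((((L p.1.1.im a.1.1.im).mul (L (ang w2 p c) (ang w2 a c))).add
          ((L p.1.1.re a.1.1.re).mul (L (ang w3 p c) (ang w3 a c)))).const_mul (b.2 2)).sub
        ((((L p.1.1.im a.1.1.im).mul (L (ang w2 p b) (ang w2 a b))).add
          ((L p.1.1.re a.1.1.re).mul (L (ang w3 p b) (ang w3 a b)))).const_mul (c.2 2)))).const_mul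
          4)).add
      ((((((L (p.2 0) (a.2 0)).mul_const (b.2 1 * c.2 2 - c.2 1 * b.2 2))).add
        ((L (p.2 1) (a.2 1)).mul_const (b.2 2 * c.2 0 - c.2 2 * b.2 0))).add
        ((L (p.2 2) (a.2 2)).mul_const (b.2 0 * c.2 1 - c.2 0 * b.2 1))).const_mul 4)).congr_deriv ?_
    simp only [DOm, Pi.mul_apply, Pi.sub_apply, zero_mul, add_zero]
    ring
  exact h2.unique h3

end Form

section Tangent

/-- `v` is the image of a tangent vector at `p` with angular components `r1, r2, r3, r4`. -/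
structure IsTan (p v : Amb) (r : Fin 4 → ℝ) : Prop where
  re1 : v.1.1.re = -r 0 * p.1.1.im
  im1 : v.1.1.im = r 0 * p.1.1.re
  re2 : v.1.2.1.re = -r 1 * p.1.2.1.im
  im2 : v.1.2.1.im = r 1 * p.1.2.1.re
  re3 : v.1.2.2.1.re = -r 2 * p.1.2.2.1.im
  im3 : v.1.2.2.1.im = r 2 * p.1.2.2.1.re
  re4 : v.1.2.2.2.re = -r 3 * p.1.2.2.2.im
  im4 : v.1.2.2.2.im = r 3 * p.1.2.2.2.re
  orth : p.2 0 * v.2 0 + p.2 1 * v.2 1 + p.2 2 * v.2 2 = 0

/-- `p` lies on the embedded `T⁴ × S²`. -/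
structure IsPt (p : Amb) : Prop where
  n1 : p.1.1.re * p.1.1.re + p.1.1.im * p.1.1.im = 1
  n2 : p.1.2.1.re * p.1.2.1.re + p.1.2.1.im * p.1.2.1.im = 1
  n3 : p.1.2.2.1.re * p.1.2.2.1.re + p.1.2.2.1.im * p.1.2.2.1.im = 1
  n4 : p.1.2.2.2.re * p.1.2.2.2.re + p.1.2.2.2.im * p.1.2.2.2.im = 1
  ny : p.2 0 * p.2 0 + p.2 1 * p.2 1 + p.2 2 * p.2 2 = 1

theorem isPt_emb (x : Torus × S2) : IsPt (emb x) :=
  ⟨circ_norm _, circ_norm _, circ_norm _, circ_norm _, S2_norm _⟩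

theorem isTan_emb (x : Torus × S2) (v : TangentSpace IX x) :
    ∃ r, IsTan (emb x) (mvfderiv IX emb x v) r := by
  obtain ⟨r1, h1, h1'⟩ := dcirc_eq x.1.1 v.1.1
  obtain ⟨r2, h2, h2'⟩ := dcirc_eq x.1.2.1 v.1.2.1
  obtain ⟨r3, h3, h3'⟩ := dcirc_eq x.1.2.2.1 v.1.2.2.1
  obtain ⟨r4, h4, h4'⟩ := dcirc_eq x.1.2.2.2 v.1.2.2.2
  refine ⟨![r1, r2, r3, r4], ?_⟩
  rw [mvfderiv_emb, mvfderiv_embT]
  exact ⟨h1, h1', h2, h2', h3, h3', h4, h4', S2_orth x.2 v.2⟩

variable {p v w : Amb} {r s : Fin 4 → ℝ}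

theorem IsTan.ang1 (hp : IsPt p) (h : IsTan p v r) : ang w1 p v = r 0 := by
  rw [ang_apply, w1_apply, w1_apply, h.re1, h.im1]; linear_combination r 0 * hp.n1

theorem IsTan.ang2 (hp : IsPt p) (h : IsTan p v r) : ang w2 p v = r 1 := by
  rw [ang_apply, w2_apply, w2_apply, h.re2, h.im2]; linear_combination r 1 * hp.n2

theorem IsTan.ang3 (hp : IsPt p) (h : IsTan p v r) : ang w3 p v = r 2 := by
  rw [ang_apply, w3_apply, w3_apply, h.re3, h.im3]; linear_combination r 2 * hp.n3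

theorem IsTan.ang4 (hp : IsPt p) (h : IsTan p v r) : ang w4 p v = r 3 := by
  rw [ang_apply, w4_apply, w4_apply, h.re4, h.im4]; linear_combination r 3 * hp.n4

theorem IsTan.ang1' (h : IsTan p v r) (h' : IsTan p w s) : ang w1 v w = 0 := by
  rw [ang_apply, w1_apply, w1_apply, h.re1, h.im1, h'.re1, h'.im1]; ring

theorem IsTan.ang2' (h : IsTan p v r) (h' : IsTan p w s) : ang w2 v w = 0 := by
  rw [ang_apply, w2_apply, w2_apply, h.re2, h.im2, h'.re2, h'.im2]; ring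

theorem IsTan.ang3' (h : IsTan p v r) (h' : IsTan p w s) : ang w3 v w = 0 := by
  rw [ang_apply, w3_apply, w3_apply, h.re3, h.im3, h'.re3, h'.im3]; ring

theorem IsTan.ang4' (h : IsTan p v r) (h' : IsTan p w s) : ang w4 v w = 0 := by
  rw [ang_apply, w4_apply, w4_apply, h.re4, h.im4, h'.re4, h'.im4]; ring

/-- three vectors orthogonal to a unit vector are linearly dependent -/
theorem det_zero (y a b c : Fin 3 → ℝ) (hy : y 0 * y 0 + y 1 * y 1 + y 2 * y 2 = 1)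
    (ha : y 0 * a 0 + y 1 * a 1 + y 2 * a 2 = 0)
    (hb : y 0 * b 0 + y 1 * b 1 + y 2 * b 2 = 0)
    (hc : y 0 * c 0 + y 1 * c 1 + y 2 * c 2 = 0) :
    a 0 * (b 1 * c 2 - c 1 * b 2) + a 1 * (b 2 * c 0 - c 2 * b 0)
      + a 2 * (b 0 * c 1 - c 0 * b 1) = 0 := by
  linear_combination
    (-(a 0 * (b 1 * c 2 - c 1 * b 2) + a 1 * (b 2 * c 0 - c 2 * b 0)
      + a 2 * (b 0 * c 1 - c 0 * b 1))) * hy
    + (y 0 * (b 1 * c 2 - b 2 * c 1) + y 1 * (b 2 * c 0 - b 0 * c 2)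
        + y 2 * (b 0 * c 1 - b 1 * c 0)) * ha
    + (y 0 * (c 1 * a 2 - c 2 * a 1) + y 1 * (c 2 * a 0 - c 0 * a 2)
        + y 2 * (c 0 * a 1 - c 1 * a 0)) * hb
    + (y 0 * (a 1 * b 2 - a 2 * b 1) + y 1 * (a 2 * b 0 - a 0 * b 2)
        + y 2 * (a 0 * b 1 - a 1 * b 0)) * hc

theorem extDeriv_OmegaAmb (hp : IsPt p) {a b c : Amb} {ra rb rc : Fin 4 → ℝ}
    (ha : IsTan p a ra) (hb : IsTan p b rb) (hc : IsTan p c rc) :
    DOm p a b c - DOm p b a c + DOm p c a b = 0 := by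
  have hdet := det_zero (fun i => p.2 i) (fun i => a.2 i) (fun i => b.2 i) (fun i => c.2 i)
    hp.ny ha.orth hb.orth hc.orth
  simp only [DOm, ha.ang1 hp, ha.ang2 hp, ha.ang3 hp, ha.ang4 hp, hb.ang1 hp, hb.ang2 hp,
    hb.ang3 hp, hb.ang4 hp, hc.ang1 hp, hc.ang2 hp, hc.ang3 hp, hc.ang4 hp,
    ha.ang1' hb, ha.ang2' hb, ha.ang3' hb, ha.ang4' hb, ha.ang1' hc, ha.ang2' hc, ha.ang3' hc,
    ha.ang4' hc, hb.ang1' ha, hb.ang2' ha, hb.ang3' ha, hb.ang4' ha, hb.ang1' hc, hb.ang2' hc,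
    hb.ang3' hc, hb.ang4' hc, hc.ang1' ha, hc.ang2' ha, hc.ang3' ha, hc.ang4' ha, hc.ang1' hb,
    hc.ang2' hb, hc.ang3' hb, hc.ang4' hb, ha.re1, ha.im1, hb.re1, hb.im1, hc.re1, hc.im1]
  linear_combination 12 * hdet

end Tangent

end Pool.Agent.Helper29.JSphere
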