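import Mathlib
import Pool.Agent.Helper29.JSphere.Explicit

open scoped Manifold ContDiff Topology
open Metric Set

noncomputable section

namespace Pool.Agent.Helper29.JSphere

section Coframe

/-- the rotating coframe -/
def E1 (p : Amb) : Amb →L[ℝ] ℝ := ang w1 p
def E2 (p : Amb) : Amb →L[ℝ] ℝ := (rew w1 p) • ang w2 p - (imw w1 p) • ang w3 p
def E3 (p : Amb) : Amb →L[ℝ] ℝ := ang w4 p
def E4 (p : Amb) : Amb →L[ℝ] ℝ := (imw w1 p) • ang w2 p + (rew w1 p) • ang w3 p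

/-- the coframe composed with the almost complex structure -/
def F1 (p : Amb) : Amb →L[ℝ] ℝ := -E3 p - (2 * yc 2 p) • E2 p
def F2 (p : Amb) : Amb →L[ℝ] ℝ := -E4 p + (2 * yc 2 p) • E1 p
def F3 (p : Amb) : Amb →L[ℝ] ℝ := (1 - 4 * yc 2 p * yc 2 p) • E1 p + (2 * yc 2 p) • E4 p
def F4 (p : Amb) : Amb →L[ℝ] ℝ := (1 - 4 * yc 2 p * yc 2 p) • E2 p - (2 * yc 2 p) • E3 p

/-- the sphere components of the almost complex structure -/
def G0 (p : Amb) : Amb →L[ℝ] ℝ :=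
  (yc 1 p) • yc 2 - (yc 2 p) • yc 1 - (yc 1 p) • F4 p + (yc 0 p * yc 2 p) • E4 p
def G1 (p : Amb) : Amb →L[ℝ] ℝ :=
  (yc 2 p) • yc 0 - (yc 0 p) • yc 2 + (yc 0 p) • F4 p + (yc 1 p * yc 2 p) • E4 p
def G2 (p : Amb) : Amb →L[ℝ] ℝ :=
  (yc 0 p) • yc 1 - (yc 1 p) • yc 0 - (yc 0 p * yc 0 p + yc 1 p * yc 1 p) • E4 p

/-- The ambient endomorphism field inducing the almost complex structure. -/
def Jamb (p : Amb) : Amb →L[ℝ] Amb :=
  (((F1 p).smulRight (Complex.I * w1 p)).prod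
    (((imw w1 p • F4 p + rew w1 p • F2 p).smulRight (Complex.I * w2 p)).prod
      (((rew w1 p • F4 p - imw w1 p • F2 p).smulRight (Complex.I * w3 p)).prod
        ((F3 p).smulRight (Complex.I * w4 p))))).prod
  ((G0 p).smulRight (EuclideanSpace.single (0 : Fin 3) (1 : ℝ))
    + (G1 p).smulRight (EuclideanSpace.single (1 : Fin 3) (1 : ℝ))
    + (G2 p).smulRight (EuclideanSpace.single (2 : Fin 3) (1 : ℝ)))

theorem contDiff_E1 : ContDiff ℝ ∞ E1 := by unfold E1; fun_prop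
theorem contDiff_E2 : ContDiff ℝ ∞ E2 := by unfold E2; fun_prop
theorem contDiff_E3 : ContDiff ℝ ∞ E3 := by unfold E3; fun_prop
theorem contDiff_E4 : ContDiff ℝ ∞ E4 := by unfold E4; fun_prop
theorem contDiff_F1 : ContDiff ℝ ∞ F1 := by
  have := contDiff_E3; have := contDiff_E2; unfold F1; fun_prop
theorem contDiff_F2 : ContDiff ℝ ∞ F2 := by
  have := contDiff_E4; have := contDiff_E1; unfold F2; fun_prop
theorem contDiff_F3 : ContDiff ℝ ∞ F3 := by
  have := contDiff_E4; have := contDiff_E1; unfold F3; fun_prop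
theorem contDiff_F4 : ContDiff ℝ ∞ F4 := by
  have := contDiff_E2; have := contDiff_E3; unfold F4; fun_prop
theorem contDiff_G0 : ContDiff ℝ ∞ G0 := by
  have := contDiff_F4; have := contDiff_E4; unfold G0; fun_prop
theorem contDiff_G1 : ContDiff ℝ ∞ G1 := by
  have := contDiff_F4; have := contDiff_E4; unfold G1; fun_prop
theorem contDiff_G2 : ContDiff ℝ ∞ G2 := by
  have := contDiff_E4; unfold G2; fun_prop

theorem contDiff_Jamb : ContDiff ℝ ∞ (fun q : Amb × Amb => Jamb q.1 q.2) := by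
  have := contDiff_F1
  have := contDiff_F2
  have := contDiff_F3
  have := contDiff_F4
  have := contDiff_G0
  have := contDiff_G1
  have := contDiff_G2
  have h : (fun q : Amb × Amb => Jamb q.1 q.2) = fun q : Amb × Amb =>
    (((F1 q.1 q.2) • (Complex.I * w1 q.1),
      (imw w1 q.1 • F4 q.1 + rew w1 q.1 • F2 q.1) q.2 • (Complex.I * w2 q.1),
      (rew w1 q.1 • F4 q.1 - imw w1 q.1 • F2 q.1) q.2 • (Complex.I * w3 q.1),
      (F3 q.1 q.2) • (Complex.I * w4 q.1)),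
    ((G0 q.1 q.2) • EuclideanSpace.single (0 : Fin 3) (1 : ℝ)
      + (G1 q.1 q.2) • EuclideanSpace.single (1 : Fin 3) (1 : ℝ)
      + (G2 q.1 q.2) • EuclideanSpace.single (2 : Fin 3) (1 : ℝ))) := rfl
  rw [h]
  fun_prop

end Coframe

section Algebra

variable {p v w : Amb} {r s : Fin 4 → ℝ}

/-- The value of the ambient form on tangent vectors, in the rotating coframe. -/
theorem OmegaAmb_tan (hp : IsPt p) (v w : Amb) :
    OmegaAmb p ![v, w] =
      (E1 p v * E3 p w - E3 p v * E1 p w) + (E2 p v * E4 p w - E4 p v * E2 p w)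
      + 4 * p.2 2 * (E1 p v * E2 p w - E2 p v * E1 p w)
      + 4 * (v.2 2 * E4 p w - w.2 2 * E4 p v)
      + 4 * (p.2 0 * (v.2 1 * w.2 2 - w.2 1 * v.2 2)
        + p.2 1 * (v.2 2 * w.2 0 - w.2 2 * v.2 0)
        + p.2 2 * (v.2 0 * w.2 1 - w.2 0 * v.2 1)) := by
  rw [OmegaAmb_apply]
  simp only [E1, E2, E3, E4, sub_apply, add_apply, smul_apply, smul_eq_mul, rew_apply, imw_apply,
    w1_apply]
  linear_combination (-(ang w2 p v * ang w3 p w - ang w2 p w * ang w3 p v)) * hp.n1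

theorem Jamb_snd (p v : Amb) : (Jamb p v).2 0 = G0 p v ∧ (Jamb p v).2 1 = G1 p v
    ∧ (Jamb p v).2 2 = G2 p v := by
  refine ⟨?_, ?_, ?_⟩ <;> simp [Jamb]

theorem isTan_Jamb (p v : Amb) :
    IsTan p (Jamb p v) ![F1 p v, p.1.1.im * F4 p v + p.1.1.re * F2 p v,
      p.1.1.re * F4 p v - p.1.1.im * F2 p v, F3 p v] := by
  obtain ⟨h0, h1, h2⟩ := Jamb_snd p v
  refine ⟨?_, ?_, ?_, ?_, ?_, ?_, ?_, ?_, ?_⟩
  · simp [Jamb]
  · simp [Jamb]
  · simp [Jamb]; ring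
  · simp [Jamb]
  · simp [Jamb]; ring
  · simp [Jamb]
  · simp [Jamb]
  · simp [Jamb]
  · rw [h0, h1, h2]
    simp only [G0, G1, G2, sub_apply, add_apply, smul_apply, smul_eq_mul, yc_apply]
    ring

theorem E_Jamb (hp : IsPt p) (v : Amb) :
    E1 p (Jamb p v) = F1 p v ∧ E2 p (Jamb p v) = F2 p v ∧ E3 p (Jamb p v) = F3 p v
      ∧ E4 p (Jamb p v) = F4 p v := by
  have h := isTan_Jamb p v
  refine ⟨?_, ?_, ?_, ?_⟩
  · simpa [E1] using h.ang1 hp
  · simp only [E2, sub_apply, smul_apply, smul_eq_mul, rew_apply, imw_apply, w1_apply,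
      h.ang2 hp, h.ang3 hp]
    simp
    linear_combination F2 p v * hp.n1
  · simpa [E3] using h.ang4 hp
  · simp only [E4, add_apply, smul_apply, smul_eq_mul, rew_apply, imw_apply, w1_apply,
      h.ang2 hp, h.ang3 hp]
    simp
    linear_combination F4 p v * hp.n1

theorem F_apply (p v : Amb) :
    F1 p v = -E3 p v - 2 * p.2 2 * E2 p v ∧
    F2 p v = -E4 p v + 2 * p.2 2 * E1 p v ∧
    F3 p v = (1 - 4 * p.2 2 * p.2 2) * E1 p v + 2 * p.2 2 * E4 p v ∧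
    F4 p v = (1 - 4 * p.2 2 * p.2 2) * E2 p v - 2 * p.2 2 * E3 p v := by
  refine ⟨?_, ?_, ?_, ?_⟩ <;> simp [F1, F2, F3, F4]

theorem G_apply (p v : Amb) :
    G0 p v = p.2 1 * v.2 2 - p.2 2 * v.2 1 - p.2 1 * F4 p v + p.2 0 * p.2 2 * E4 p v ∧
    G1 p v = p.2 2 * v.2 0 - p.2 0 * v.2 2 + p.2 0 * F4 p v + p.2 1 * p.2 2 * E4 p v ∧
    G2 p v = p.2 0 * v.2 1 - p.2 1 * v.2 0
      - (p.2 0 * p.2 0 + p.2 1 * p.2 1) * E4 p v := by
  refine ⟨?_, ?_, ?_⟩ <;> simp [G0, G1, G2]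

/-- positivity -/
theorem OmegaAmb_pos (hp : IsPt p) (hv : IsTan p v r) :
    OmegaAmb p ![v, Jamb p v] = E1 p v ^ 2 + E2 p v ^ 2 + (E3 p v + 2 * p.2 2 * E2 p v) ^ 2
      + (E4 p v - 2 * p.2 2 * E1 p v) ^ 2
      + 4 * ((v.2 0 + E4 p v * p.2 1) ^ 2 + (v.2 1 - E4 p v * p.2 0) ^ 2 + (v.2 2) ^ 2) := by
  obtain ⟨e1, e2, e3, e4⟩ := E_Jamb hp v
  obtain ⟨g0, g1, g2⟩ := Jamb_snd p v
  obtain ⟨a0, a1, a2⟩ := G_apply p v
  obtain ⟨f1, f2, f3, f4⟩ := F_apply p v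
  rw [OmegaAmb_tan hp, e1, e2, e3, e4, g0, g1, g2, a0, a1, a2, f1, f2, f3, f4]
  generalize E1 p v = x1
  generalize E2 p v = x2
  generalize E3 p v = x3
  generalize E4 p v = x4
  have ho := hv.orth
  have hn := hp.ny
  linear_combination (4 * (v.2 0 ^ 2 + v.2 1 ^ 2 + v.2 2 ^ 2
    - ((1 - 4 * p.2 2 * p.2 2) * x2 - 2 * p.2 2 * x3) * v.2 2
    - x4 * (v.2 1 * p.2 0 - v.2 0 * p.2 1))) * hn
    + (4 * (-(p.2 0 * v.2 0 + p.2 1 * v.2 1 + p.2 2 * v.2 2)
      + ((1 - 4 * p.2 2 * p.2 2) * x2 - 2 * p.2 2 * x3) * p.2 2)) * ho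

/-- the almost complex structure preserves the form -/
theorem OmegaAmb_preserves (hp : IsPt p) (hv : IsTan p v r) (hw : IsTan p w s) :
    OmegaAmb p ![Jamb p v, Jamb p w] = OmegaAmb p ![v, w] := by
  obtain ⟨e1, e2, e3, e4⟩ := E_Jamb hp v
  obtain ⟨g0, g1, g2⟩ := Jamb_snd p v
  obtain ⟨a0, a1, a2⟩ := G_apply p v
  obtain ⟨f1, f2, f3, f4⟩ := F_apply p v
  obtain ⟨e1', e2', e3', e4'⟩ := E_Jamb hp w
  obtain ⟨g0', g1', g2'⟩ := Jamb_snd p w
  obtain ⟨a0', a1', a2'⟩ := G_apply p w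
  obtain ⟨f1', f2', f3', f4'⟩ := F_apply p w
  rw [OmegaAmb_tan hp, OmegaAmb_tan hp, e1, e2, e3, e4, g0, g1, g2, a0, a1, a2, e1', e2', e3', e4',
    g0', g1', g2', a0', a1', a2', f1, f2, f3, f1', f2', f3']
  have h4 := f4
  have h4' := f4'
  have ho := hv.orth
  have ho' := hw.orth
  have hn := hp.ny
  set f := F4 p v
  set g := F4 p w
  generalize E1 p v = x1 at *
  generalize E2 p v = x2 at *
  generalize E3 p v = x3 at *
  generalize E4 p v = e at *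
  generalize E1 p w = x1' at *
  generalize E2 p w = x2' at *
  generalize E3 p w = x3' at *
  generalize E4 p w = h at *
  generalize p.2 0 = y0 at *
  generalize p.2 1 = y1 at *
  generalize p.2 2 = y2 at *
  generalize v.2 0 = t0 at *
  generalize v.2 1 = t1 at *
  generalize v.2 2 = t2 at *
  generalize w.2 0 = u0 at *
  generalize w.2 1 = u1 at *
  generalize w.2 2 = u2 at *
  have key : ((y0 * t1 - y1 * t0 - (y0 * y0 + y1 * y1) * e) * g
      - (y0 * u1 - y1 * u0 - (y0 * y0 + y1 * y1) * h) * f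
      + (y0 * ((y2 * t0 - y0 * t2 + y0 * f + y1 * y2 * e) * (y0 * u1 - y1 * u0
            - (y0 * y0 + y1 * y1) * h)
          - (y2 * u0 - y0 * u2 + y0 * g + y1 * y2 * h) * (y0 * t1 - y1 * t0
            - (y0 * y0 + y1 * y1) * e))
        + y1 * ((y0 * t1 - y1 * t0 - (y0 * y0 + y1 * y1) * e) * (y1 * u2 - y2 * u1 - y1 * g
            + y0 * y2 * h)
          - (y0 * u1 - y1 * u0 - (y0 * y0 + y1 * y1) * h) * (y1 * t2 - y2 * t1 - y1 * f
            + y0 * y2 * e))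
        + y2 * ((y1 * t2 - y2 * t1 - y1 * f + y0 * y2 * e) * (y2 * u0 - y0 * u2 + y0 * g
            + y1 * y2 * h)
          - (y1 * u2 - y2 * u1 - y1 * g + y0 * y2 * h) * (y2 * t0 - y0 * t2 + y0 * f
            + y1 * y2 * e))))
      = t2 * h - u2 * e + (y0 * (t1 * u2 - u1 * t2) + y1 * (t2 * u0 - u2 * t0)
        + y2 * (t0 * u1 - u0 * t1)) := by
    linear_combination (-g * (y0 * t1 - y1 * t0) + f * (y0 * u1 - y1 * u0)
        + (e * g - f * h) * (y0 * y0 + y1 * y1)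
        + (y0 * (t1 * u2 - u1 * t2) + y1 * (t2 * u0 - u2 * t0) + y2 * (t0 * u1 - u0 * t1))
        + (y0 * y0 + y1 * y1 + y2 * y2 + 1) * (h * t2 - e * u2)) * hn
      + (-h * (y0 * y0 + y1 * y1 + y2 * y2) * y2) * ho
      + (e * (y0 * y0 + y1 * y1 + y2 * y2) * y2) * ho'
  linear_combination 4 * key + (h - 2 * y2 * x1') * h4 + (2 * y2 * x1 - e) * h4'

/-- the square of the almost complex structure -/
theorem Jamb_sq (hp : IsPt p) (hv : IsTan p v r) : Jamb p (Jamb p v) = -v := by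
  obtain ⟨e1, e2, e3, e4⟩ := E_Jamb hp v
  obtain ⟨g0, g1, g2⟩ := Jamb_snd p v
  obtain ⟨a0, a1, a2⟩ := G_apply p v
  obtain ⟨f1, f2, f3, f4⟩ := F_apply p v
  obtain ⟨g0', g1', g2'⟩ := Jamb_snd p (Jamb p v)
  obtain ⟨a0', a1', a2'⟩ := G_apply p (Jamb p v)
  obtain ⟨f1', f2', f3', f4'⟩ := F_apply p (Jamb p v)
  have hJ := isTan_Jamb p (Jamb p v)
  have k1 : F1 p (Jamb p v) = -E1 p v := by rw [f1', e3, e2, f3, f2]; ring
  have k2 : F2 p (Jamb p v) = -E2 p v := by rw [f2', e4, e1, f4, f1]; ring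
  have k3 : F3 p (Jamb p v) = -E3 p v := by rw [f3', e4, e1, f4, f1]; ring
  have k4 : F4 p (Jamb p v) = -E4 p v := by rw [f4', e3, e2, f3, f2]; ring
  have c1 : E1 p v = r 0 := hv.ang1 hp
  have c3 : E3 p v = r 3 := hv.ang4 hp
  have c2 : E2 p v = p.1.1.re * r 1 - p.1.1.im * r 2 := by
    simp [E2, sub_apply, smul_apply, hv.ang2 hp, hv.ang3 hp, -ang_apply]
  have c4 : E4 p v = p.1.1.im * r 1 + p.1.1.re * r 2 := by
    simp [E4, add_apply, smul_apply, hv.ang2 hp, hv.ang3 hp, -ang_apply]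
  have hn := hp.ny
  have ho := hv.orth
  have hn1 := hp.n1
  refine Prod.ext (Prod.ext ?_ (Prod.ext ?_ (Prod.ext ?_ ?_))) ?_
  · apply Complex.ext
    · rw [hJ.re1]; simp [k1, c1, hv.re1]
    · rw [hJ.im1]; simp [k1, c1, hv.im1]
  · apply Complex.ext
    · rw [hJ.re2]; simp [k2, k4, c2, c4, hv.re2]
      left; linear_combination (r 1) * hn1
    · rw [hJ.im2]; simp [k2, k4, c2, c4, hv.im2]
      linear_combination (-r 1 * p.1.2.1.re) * hn1
  · apply Complex.ext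
    · rw [hJ.re3]; simp [k2, k4, c2, c4, hv.re3]
      left; linear_combination (r 2) * hn1
    · rw [hJ.im3]; simp [k2, k4, c2, c4, hv.im3]
      linear_combination (-r 2 * p.1.2.2.1.re) * hn1
  · apply Complex.ext
    · rw [hJ.re4]; simp [k3, c3, hv.re4]
    · rw [hJ.im4]; simp [k3, c3, hv.im4]
  · ext i
    fin_cases i
    · show (Jamb p (Jamb p v)).2 0 = -(v.2 0)
      rw [g0', a0', k4, e4, g2, g1, a2, a1]
      linear_combination p.2 0 * ho + (-E4 p v * p.2 1 - v.2 0) * hn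
    · show (Jamb p (Jamb p v)).2 1 = -(v.2 1)
      rw [g1', a1', k4, e4, g2, g0, a2, a0]
      linear_combination p.2 1 * ho + (E4 p v * p.2 0 - v.2 1) * hn
    · show (Jamb p (Jamb p v)).2 2 = -(v.2 2)
      rw [g2', a2', e4, g0, g1, a0, a1]
      linear_combination p.2 2 * ho + (- v.2 2) * hn

/-- a tangent vector with vanishing coframe and vanishing sphere part is zero -/
theorem IsTan.eq_zero (hp : IsPt p) (hv : IsTan p v r) (h1 : E1 p v = 0) (h2 : E2 p v = 0)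
    (h3 : E3 p v = 0) (h4 : E4 p v = 0) (h5 : v.2 0 = 0) (h6 : v.2 1 = 0) (h7 : v.2 2 = 0) :
    v = 0 := by
  have c1 : E1 p v = r 0 := hv.ang1 hp
  have c3 : E3 p v = r 3 := hv.ang4 hp
  have c2 : E2 p v = p.1.1.re * r 1 - p.1.1.im * r 2 := by
    simp [E2, sub_apply, smul_apply, hv.ang2 hp, hv.ang3 hp, -ang_apply]
  have c4 : E4 p v = p.1.1.im * r 1 + p.1.1.re * r 2 := by
    simp [E4, add_apply, smul_apply, hv.ang2 hp, hv.ang3 hp, -ang_apply]
  have hn1 := hp.n1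
  have r0 : r 0 = 0 := by rw [← c1, h1]
  have r3 : r 3 = 0 := by rw [← c3, h3]
  have r1 : r 1 = 0 := by
    rw [h2] at c2; rw [h4] at c4
    linear_combination (-r 1) * hn1 - p.1.1.re * c2 - p.1.1.im * c4
  have r2 : r 2 = 0 := by
    rw [h2] at c2; rw [h4] at c4
    linear_combination (-r 2) * hn1 + p.1.1.im * c2 - p.1.1.re * c4
  refine Prod.ext (Prod.ext ?_ (Prod.ext ?_ (Prod.ext ?_ ?_))) ?_
  · apply Complex.ext
    · rw [hv.re1, r0]; simp
    · rw [hv.im1, r0]; simp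
  · apply Complex.ext
    · rw [hv.re2, r1]; simp
    · rw [hv.im2, r1]; simp
  · apply Complex.ext
    · rw [hv.re3, r2]; simp
    · rw [hv.im3, r2]; simp
  · apply Complex.ext
    · rw [hv.re4, r3]; simp
    · rw [hv.im4, r3]; simp
  · ext i
    fin_cases i
    · exact h5
    · exact h6
    · exact h7

end Algebra

end Pool.Agent.Helper29.JSphere
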