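import Mathlib
import Pool.Agent.Helper29.JSphere.Acs

open scoped Manifold ContDiff Topology
open Metric Set

noncomputable section

namespace Pool.Agent.Helper29.JSphere

section Gen

variable {E : Type*} [NormedAddCommGroup E] [NormedSpace ℝ E]
  {H : Type*} [TopologicalSpace H] {I : ModelWithCorners ℝ E H}
  {X : Type*} [TopologicalSpace X] [ChartedSpace H X] [IsManifold I ∞ X]
  {V : Type*} [NormedAddCommGroup V] [NormedSpace ℝ V]

theorem contMDiff_mvfderiv {iota : X → V} (hι : ContMDiff I 𝓘(ℝ, V) ∞ iota) :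
    ContMDiff I.tangent 𝓘(ℝ, V) ∞ (fun v : TangentBundle I X => mvfderiv I iota v.1 v.2) :=
  (contMDiff_snd_tangentBundle_modelSpace V 𝓘(ℝ, V)).comp (hι.contMDiff_tangentMap le_rfl)

end Gen

theorem embT_injective_deriv (q : Torus) (v w : TangentSpace IT q)
    (h : mvfderiv IT embT q v = mvfderiv IT embT q w) : v = w := by
  rw [mvfderiv_embT, mvfderiv_embT] at h
  have h1 := congrArg Prod.fst h
  have h2 := congrArg (fun x => x.2.1) h
  have h3 := congrArg (fun x => x.2.2.1) h
  have h4 := congrArg (fun x => x.2.2.2) h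
  exact Prod.ext (dcirc_injective _ h1) (Prod.ext (dcirc_injective _ h2)
    (Prod.ext (dcirc_injective _ h3) (dcirc_injective _ h4)))

theorem emb_injective_deriv (x : Torus × S2) : Function.Injective (mvfderiv IX emb x) := by
  intro v w h
  rw [mvfderiv_emb, mvfderiv_emb] at h
  exact Prod.ext (embT_injective_deriv _ _ _ (congrArg Prod.fst h))
    (incl_injective _ (congrArg Prod.snd h))

/-- all tangent vectors in the sense of `IsTan` come from the manifold -/
theorem exists_of_isTan (x : Torus × S2) {w : Amb} {r : Fin 4 → ℝ} (hw : IsTan (emb x) w r) :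
    ∃ v, mvfderiv IX emb x v = w := by
  obtain ⟨v1, h1⟩ := exists_dcirc x.1.1 (r 0)
  obtain ⟨v2, h2⟩ := exists_dcirc x.1.2.1 (r 1)
  obtain ⟨v3, h3⟩ := exists_dcirc x.1.2.2.1 (r 2)
  obtain ⟨v4, h4⟩ := exists_dcirc x.1.2.2.2 (r 3)
  obtain ⟨v5, h5⟩ := exists_incl_eq x.2 w.2 (by
    have := hw.orth
    simp only [PiLp.inner_apply, Fin.sum_univ_three]
    simp
    simp [emb] at this
    linarith)
  refine ⟨((v1, v2, v3, v4), v5), ?_⟩
  rw [mvfderiv_emb, mvfderiv_embT]
  simp only
  rw [h1, h2, h3, h4, h5]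
  refine Prod.ext (Prod.ext ?_ (Prod.ext ?_ (Prod.ext ?_ ?_))) rfl
  · apply Complex.ext
    · rw [hw.re1]; simp [emb]
    · rw [hw.im1]; simp [emb]
  · apply Complex.ext
    · rw [hw.re2]; simp [emb]
    · rw [hw.im2]; simp [emb]
  · apply Complex.ext
    · rw [hw.re3]; simp [emb]
    · rw [hw.im3]; simp [emb]
  · apply Complex.ext
    · rw [hw.re4]; simp [emb]
    · rw [hw.im4]; simp [emb]

theorem exists_JX (x : Torus × S2) : ∃ j : TangentSpace IX x →L[ℝ] TangentSpace IX x,
    ∀ v, mvfderiv IX emb x (j v) = Jamb (emb x) (mvfderiv IX emb x v) := by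
  have : FiniteDimensional ℝ (TangentSpace IX x) :=
    inferInstanceAs (FiniteDimensional ℝ ((EuclideanSpace ℝ (Fin 1) × EuclideanSpace ℝ (Fin 1) ×
      EuclideanSpace ℝ (Fin 1) × EuclideanSpace ℝ (Fin 1)) × EuclideanSpace ℝ (Fin 2)))
  have : T2Space (TangentSpace IX x) :=
    inferInstanceAs (T2Space ((EuclideanSpace ℝ (Fin 1) × EuclideanSpace ℝ (Fin 1) ×
      EuclideanSpace ℝ (Fin 1) × EuclideanSpace ℝ (Fin 1)) × EuclideanSpace ℝ (Fin 2)))
  obtain ⟨g, hg⟩ := LinearMap.exists_leftInverse_of_injective (mvfderiv IX emb x).toLinearMap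
    (LinearMap.ker_eq_bot.2 (emb_injective_deriv x))
  refine ⟨LinearMap.toContinuousLinearMap
    (g ∘ₗ (Jamb (emb x)).toLinearMap ∘ₗ (mvfderiv IX emb x).toLinearMap), fun v => ?_⟩
  obtain ⟨w, hw⟩ := exists_of_isTan x (isTan_Jamb (emb x) (mvfderiv IX emb x v))
  have h2 : g (Jamb (emb x) (mvfderiv IX emb x v)) = w := by
    rw [← hw]
    exact LinearMap.congr_fun hg w
  rw [← hw]
  congr 1

/-- The almost complex structure on `T⁴ × S²`. -/
def JX (x : Torus × S2) : TangentSpace IX x →L[ℝ] TangentSpace IX x :=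
  Classical.choose (exists_JX x)

theorem emb_JX (x : Torus × S2) (v : TangentSpace IX x) :
    mvfderiv IX emb x (JX x v) = Jamb (emb x) (mvfderiv IX emb x v) :=
  Classical.choose_spec (exists_JX x) v

/-- The symplectic form on `T⁴ × S²`. -/
def sigmaX (x : Torus × S2) : TangentSpace IX x [⋀^Fin 2]→L[ℝ] ℝ := pullForm IX emb OmegaAmb x

theorem sigmaX_apply (x : Torus × S2) (v w : TangentSpace IX x) :
    sigmaX x ![v, w] = OmegaAmb (emb x) ![mvfderiv IX emb x v, mvfderiv IX emb x w] := by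
  unfold sigmaX pullForm
  rw [ContinuousAlternatingMap.compContinuousLinearMap_apply]
  congr 1
  funext i
  fin_cases i <;> rfl

theorem sigmaX_pos (x : Torus × S2) (v : TangentSpace IX x) (hv : v ≠ 0) :
    0 < sigmaX x ![v, JX x v] := by
  obtain ⟨r, hr⟩ := isTan_emb x v
  have hp := isPt_emb x
  rw [sigmaX_apply, emb_JX, OmegaAmb_pos hp hr]
  by_contra hneg
  have hneg' := not_lt.1 hneg
  clear hneg
  set p := emb x
  set w := mvfderiv IX emb x v
  have q1 := sq_nonneg (E1 p w)
  have q2 := sq_nonneg (E2 p w)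
  have q3 := sq_nonneg (E3 p w + 2 * p.2 2 * E2 p w)
  have q4 := sq_nonneg (E4 p w - 2 * p.2 2 * E1 p w)
  have q5 := sq_nonneg (w.2 0 + E4 p w * p.2 1)
  have q6 := sq_nonneg (w.2 1 - E4 p w * p.2 0)
  have q7 := sq_nonneg (w.2 2)
  have a1 : E1 p w = 0 := pow_eq_zero_iff (two_ne_zero) |>.1 (by linarith)
  have a2 : E2 p w = 0 := pow_eq_zero_iff (two_ne_zero) |>.1 (by linarith)
  have a3 : E3 p w + 2 * p.2 2 * E2 p w = 0 := pow_eq_zero_iff (two_ne_zero) |>.1 (by linarith)
  have a4 : E4 p w - 2 * p.2 2 * E1 p w = 0 := pow_eq_zero_iff (two_ne_zero) |>.1 (by linarith)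
  have a5 : w.2 0 + E4 p w * p.2 1 = 0 := pow_eq_zero_iff (two_ne_zero) |>.1 (by linarith)
  have a6 : w.2 1 - E4 p w * p.2 0 = 0 := pow_eq_zero_iff (two_ne_zero) |>.1 (by linarith)
  have a7 : w.2 2 = 0 := pow_eq_zero_iff (two_ne_zero) |>.1 (by linarith)
  rw [a2, mul_zero, add_zero] at a3
  rw [a1, mul_zero, sub_zero] at a4
  rw [a4, zero_mul, add_zero] at a5
  rw [a4, zero_mul, sub_zero] at a6
  have hw : w = 0 := hr.eq_zero hp a1 a2 a3 a4 a5 a6 a7
  apply hv
  apply emb_injective_deriv x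
  rw [map_zero]
  exact hw

theorem isCompatible : IsCompatible IX sigmaX JX where
  smooth := by
    apply contMDiff_lift contMDiff_emb emb_injective_deriv
    · exact Bundle.contMDiff_proj (TangentSpace IX)
    · have h : (fun v : TangentBundle IX (Torus × S2) => mvfderiv IX emb v.1 (JX v.1 v.2)) =
        (fun q : Amb × Amb => Jamb q.1 q.2) ∘ (fun v : TangentBundle IX (Torus × S2) =>
          (emb v.1, mvfderiv IX emb v.1 v.2)) := by
        funext v
        exact emb_JX v.1 v.2
      have h2 := contDiff_Jamb.contMDiff.comp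
        (ContMDiff.prodMk_space (contMDiff_emb.comp (Bundle.contMDiff_proj (TangentSpace IX)))
          (contMDiff_mvfderiv contMDiff_emb))
      exact h ▸ h2
  sq := by
    intro x v
    apply emb_injective_deriv x
    obtain ⟨r, hr⟩ := isTan_emb x v
    rw [emb_JX, emb_JX, Jamb_sq (isPt_emb x) hr, map_neg]
  preserves := by
    intro x v w
    obtain ⟨r, hr⟩ := isTan_emb x v
    obtain ⟨s, hs⟩ := isTan_emb x w
    rw [sigmaX_apply, sigmaX_apply, emb_JX, emb_JX, OmegaAmb_preserves (isPt_emb x) hr hs]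
  pos := sigmaX_pos

theorem isSymplectic : IsSymplectic IX sigmaX where
  smooth := fun x₀ => contDiffOn_chartForm_pullForm contMDiff_emb contDiff_FA contDiff_FB x₀
  closed := by
    intro x₀ e he
    have h1 := extDeriv_chartForm_pullForm (I := IX) contMDiff_emb
      (contDiff_OmegaAmb.differentiable (by simp)) x₀ he
    refine Eq.trans h1 ?_
    ext v
    obtain ⟨v0, h0⟩ := fderiv_comp_symm_mem (I := IX) contMDiff_emb x₀ he (v 0)
    obtain ⟨v1, h1⟩ := fderiv_comp_symm_mem (I := IX) contMDiff_emb x₀ he (v 1)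
    obtain ⟨v2, h2⟩ := fderiv_comp_symm_mem (I := IX) contMDiff_emb x₀ he (v 2)
    obtain ⟨r0, hr0⟩ := isTan_emb _ v0
    obtain ⟨r1, hr1⟩ := isTan_emb _ v1
    obtain ⟨r2, hr2⟩ := isTan_emb _ v2
    rw [← h0] at hr0
    rw [← h1] at hr1
    rw [← h2] at hr2
    have hp := isPt_emb ((extChartAt IX x₀).symm e)
    have key := extDeriv_OmegaAmb hp hr0 hr1 hr2
    rw [← fderiv_OmegaAmb, ← fderiv_OmegaAmb, ← fderiv_OmegaAmb] at key
    rw [ContinuousAlternatingMap.compContinuousLinearMap_apply,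
      extDeriv_apply (contDiff_OmegaAmb.differentiable (by simp) _), Fin.sum_univ_three]
    refine Eq.trans ?_ key
    have e0 : ∀ w : Fin 3 → Amb, Fin.removeNth 0 w = ![w 1, w 2] := fun w => by
      funext i; fin_cases i <;> rfl
    have e1 : ∀ w : Fin 3 → Amb, Fin.removeNth 1 w = ![w 0, w 2] := fun w => by
      funext i; fin_cases i <;> rfl
    have e2 : ∀ w : Fin 3 → Amb, Fin.removeNth 2 w = ![w 0, w 1] := fun w => by
      funext i; fin_cases i <;> rfl
    rw [e0, e1, e2]
    simp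
    ring
  nondegenerate := by
    intro x v hv
    by_contra hne
    have := sigmaX_pos x v hne
    rw [hv] at this
    exact lt_irrefl _ this

end Pool.Agent.Helper29.JSphere
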