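import Mathlib
import Pool.Agent.Helper29.JSphere.Structure
import Pool.Agent.Helper29.JSphere.Calculus

open scoped Manifold ContDiff Topology
open Metric Set

noncomputable section

namespace Pool.Agent.Helper29.JSphere

/-- spherical coordinates, as a map into Euclidean 3-space -/
def phi0 (q : ℝ × ℝ) : EuclideanSpace ℝ (Fin 3) :=
  WithLp.toLp 2 ![Real.sin q.1 * Real.cos q.2, Real.sin q.1 * Real.sin q.2, Real.cos q.1]

theorem contDiff_phi0 : ContDiff ℝ ∞ phi0 := by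
  rw [contDiff_euclidean]
  intro i
  fin_cases i
  · exact (by fun_prop : ContDiff ℝ ∞ (fun q : ℝ × ℝ => Real.sin q.1 * Real.cos q.2))
  · exact (by fun_prop : ContDiff ℝ ∞ (fun q : ℝ × ℝ => Real.sin q.1 * Real.sin q.2))
  · exact (by fun_prop : ContDiff ℝ ∞ (fun q : ℝ × ℝ => Real.cos q.1))

theorem phi0_mem (q : ℝ × ℝ) : phi0 q ∈ sphere (0 : EuclideanSpace ℝ (Fin 3)) 1 := by
  rw [mem_sphere_zero_iff_norm, EuclideanSpace.norm_eq, Real.sqrt_eq_one]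
  simp [phi0, Fin.sum_univ_three, sq_abs]
  have h1 := Real.sin_sq_add_cos_sq q.1
  have h2 := Real.sin_sq_add_cos_sq q.2
  linear_combination h1 + Real.sin q.1 ^ 2 * h2

/-- spherical coordinates -/
def phi (q : ℝ × ℝ) : S2 := Set.codRestrict phi0 _ phi0_mem q

theorem phi_coe (q : ℝ × ℝ) : (phi q : EuclideanSpace ℝ (Fin 3)) = phi0 q := rfl

theorem contMDiff_phi : ContMDiff 𝓘(ℝ, ℝ × ℝ) (𝓡 2) ∞ phi :=
  haveI := Fact.mk (@finrank_euclideanSpace_fin ℝ _ 3)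
  contDiff_phi0.contMDiff.codRestrict_sphere phi0_mem

theorem fderiv_phi0 (q v : ℝ × ℝ) : fderiv ℝ phi0 q v = WithLp.toLp 2
    ![Real.cos q.1 * Real.cos q.2 * v.1 - Real.sin q.1 * Real.sin q.2 * v.2,
      Real.cos q.1 * Real.sin q.2 * v.1 + Real.sin q.1 * Real.cos q.2 * v.2,
      -Real.sin q.1 * v.1] := by
  have hd : DifferentiableAt ℝ phi0 q := contDiff_phi0.differentiable (by simp) q
  have h1 : HasDerivAt (fun t : ℝ => phi0 (q + t • v)) (fderiv ℝ phi0 q v) 0 := by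
    have hl : HasDerivAt (fun t : ℝ => q + t • v) v 0 := by
      simpa using ((hasDerivAt_id (0 : ℝ)).smul_const v).const_add q
    have hd' : HasFDerivAt phi0 (fderiv ℝ phi0 q) (q + (0 : ℝ) • v) := by
      simpa using hd.hasFDerivAt
    exact hd'.comp_hasDerivAt (0 : ℝ) hl
  have l1 : HasDerivAt (fun t : ℝ => q.1 + t * v.1) v.1 0 := by
    simpa using ((hasDerivAt_id (0 : ℝ)).mul_const v.1).const_add q.1
  have l2 : HasDerivAt (fun t : ℝ => q.2 + t * v.2) v.2 0 := by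
    simpa using ((hasDerivAt_id (0 : ℝ)).mul_const v.2).const_add q.2
  have hi : ∀ i : Fin 3, HasDerivAt (fun t : ℝ => phi0 (q + t • v) i) (fderiv ℝ phi0 q v i) 0 :=
    fun i => (EuclideanSpace.proj (𝕜 := ℝ) i).hasFDerivAt.comp_hasDerivAt 0 h1
  ext i
  fin_cases i
  · refine (hi 0).unique (HasDerivAt.congr_deriv ((l1.sin).mul (l2.cos)) ?_)
    simp
    ring
  · refine (hi 1).unique (HasDerivAt.congr_deriv ((l1.sin).mul (l2.sin)) ?_)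
    simp
    ring
  · refine (hi 2).unique (HasDerivAt.congr_deriv (l1.cos) ?_)
    simp

/-- tangent vectors of the coordinate lines -/
def T1 (q : ℝ × ℝ) : TangentSpace (𝓡 2) (phi q) := mfderiv 𝓘(ℝ, ℝ × ℝ) (𝓡 2) phi q ((1 : ℝ), (0 : ℝ))
def T2 (q : ℝ × ℝ) : TangentSpace (𝓡 2) (phi q) := mfderiv 𝓘(ℝ, ℝ × ℝ) (𝓡 2) phi q ((0 : ℝ), (1 : ℝ))

theorem incl_mfderiv_phi (q : ℝ × ℝ) (v : ℝ × ℝ) :
    incl (phi q) (mfderiv 𝓘(ℝ, ℝ × ℝ) (𝓡 2) phi q v) = fderiv ℝ phi0 q v := by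
  have h1 := mvfderiv_comp_apply' (I := 𝓡 2) (I' := 𝓘(ℝ, ℝ × ℝ))
    (g := ((↑) : S2 → EuclideanSpace ℝ (Fin 3))) (f := phi) q (mdiff_S2 _)
    ((contMDiff_phi q).mdifferentiableAt (by simp)) v
  refine h1.symm.trans ?_
  show mfderiv 𝓘(ℝ, ℝ × ℝ) 𝓘(ℝ, EuclideanSpace ℝ (Fin 3)) phi0 q v = _
  rw [mfderiv_eq_fderiv]
  rfl

theorem incl_T1 (q : ℝ × ℝ) : incl (phi q) (T1 q) = WithLp.toLp 2
    ![Real.cos q.1 * Real.cos q.2, Real.cos q.1 * Real.sin q.2, -Real.sin q.1] := by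
  unfold T1
  rw [incl_mfderiv_phi, fderiv_phi0]
  simp

theorem incl_T2 (q : ℝ × ℝ) : incl (phi q) (T2 q) = WithLp.toLp 2
    ![-Real.sin q.1 * Real.sin q.2, Real.sin q.1 * Real.cos q.2, 0] := by
  unfold T2
  rw [incl_mfderiv_phi, fderiv_phi0]
  simp

theorem rotJ_T2 (q : ℝ × ℝ) : rotJ (phi q) (T2 q) = (-Real.sin q.1) • T1 q := by
  apply incl_injective
  rw [incl_rotJ, map_smul, incl_T1, incl_T2, phi_coe]
  ext i
  have h2 := Real.sin_sq_add_cos_sq q.2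
  fin_cases i
  · simp [cross3, phi0, crossProduct]
    ring
  · simp [cross3, phi0, crossProduct]
    ring
  · simp [cross3, phi0, crossProduct]
    linear_combination Real.sin q.1 ^ 2 * h2

/-- pulling back a function by spherical coordinates -/
theorem d1_comp_phi {X : S2 → ℝ} (hX : ContMDiff (𝓡 2) 𝓘(ℝ, ℝ) ∞ X) (q : ℝ × ℝ) :
    d1 (fun q => X (phi q)) q = mvfderiv (𝓡 2) X (phi q) (T1 q) := by
  have h1 := mvfderiv_comp_apply' (I := 𝓡 2) (I' := 𝓘(ℝ, ℝ × ℝ))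
    (g := X) (f := phi) q ((hX _).mdifferentiableAt (by simp))
    ((contMDiff_phi q).mdifferentiableAt (by simp)) ((1 : ℝ), (0 : ℝ))
  refine Eq.trans ?_ h1
  show _ = mfderiv 𝓘(ℝ, ℝ × ℝ) 𝓘(ℝ, ℝ) (fun q => X (phi q)) q ((1 : ℝ), (0 : ℝ))
  rw [mfderiv_eq_fderiv]
  rfl

theorem d2_comp_phi {X : S2 → ℝ} (hX : ContMDiff (𝓡 2) 𝓘(ℝ, ℝ) ∞ X) (q : ℝ × ℝ) :
    d2 (fun q => X (phi q)) q = mvfderiv (𝓡 2) X (phi q) (T2 q) := by
  have h1 := mvfderiv_comp_apply' (I := 𝓡 2) (I' := 𝓘(ℝ, ℝ × ℝ))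
    (g := X) (f := phi) q ((hX _).mdifferentiableAt (by simp))
    ((contMDiff_phi q).mdifferentiableAt (by simp)) ((0 : ℝ), (1 : ℝ))
  refine Eq.trans ?_ h1
  show _ = mfderiv 𝓘(ℝ, ℝ × ℝ) 𝓘(ℝ, ℝ) (fun q => X (phi q)) q ((0 : ℝ), (1 : ℝ))
  rw [mfderiv_eq_fderiv]
  rfl

theorem contDiff_comp_phi {X : S2 → ℝ} (hX : ContMDiff (𝓡 2) 𝓘(ℝ, ℝ) ∞ X) :
    ContDiff ℝ 1 (fun q => X (phi q)) := by
  have h1 : ContMDiff 𝓘(ℝ, ℝ × ℝ) 𝓘(ℝ, ℝ) ∞ (fun q => X (phi q)) := hX.comp contMDiff_phi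
  exact (contMDiff_iff_contDiff.1 h1).of_le (by exact WithTop.coe_le_coe.2 (le_top : (1 : ℕ∞) ≤ ⊤))

theorem phi_periodic (t : ℝ) : phi (t, 2 * Real.pi) = phi (t, 0) := by
  apply Subtype.ext
  rw [phi_coe, phi_coe]
  simp [phi0]

end Pool.Agent.Helper29.JSphere
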