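import Mathlib
import Pool.Agent.Helper29.JSphere.Sphere
import Pool.Agent.Helper29.JSphere.Normal

open scoped Manifold ContDiff Topology
open Metric Set

noncomputable section

namespace Pool.Agent.Helper29.JSphere

/-- The vertical sphere over the point `b` of the torus. -/
def vert (b : Torus) (z : S2) : Torus × S2 := (b, z)

section Vertical

theorem emb_vert (x : Torus × S2) (t : TangentSpace (𝓡 2) x.2) :
    mvfderiv IX emb x ((0 : TangentSpace IT x.1), t) = (0, incl x.2 t) := by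
  rw [mvfderiv_emb]
  exact Prod.ext (map_zero _) rfl

theorem Jamb_vert (p : Amb) (t : EuclideanSpace ℝ (Fin 3)) :
    Jamb p (0, t) = (0, cross3 p.2 t) := by
  have h1 : E1 p (0, t) = 0 := by simp [E1]
  have h2 : E2 p (0, t) = 0 := by simp [E2]
  have h3 : E3 p (0, t) = 0 := by simp [E3]
  have h4 : E4 p (0, t) = 0 := by simp [E4]
  obtain ⟨f1, f2, f3, f4⟩ := F_apply p ((0 : ℂ × ℂ × ℂ × ℂ), t)
  rw [h2, h3] at f1
  rw [h1, h4] at f2 f3
  rw [h2, h3] at f4
  obtain ⟨a0, a1, a2⟩ := G_apply p ((0 : ℂ × ℂ × ℂ × ℂ), t)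
  obtain ⟨g0, g1, g2⟩ := Jamb_snd p ((0 : ℂ × ℂ × ℂ × ℂ), t)
  have f1' : F1 p (0, t) = 0 := by rw [f1]; ring
  have f2' : F2 p (0, t) = 0 := by rw [f2]; ring
  have f3' : F3 p (0, t) = 0 := by rw [f3]; ring
  have f4' : F4 p (0, t) = 0 := by rw [f4]; ring
  refine Prod.ext ?_ ?_
  · simp [Jamb, f1', f2', f3', f4']
  · ext i
    fin_cases i
    · refine (g0.trans a0).trans ?_
      rw [f4', h4]; simp [cross3, crossProduct]
    · refine (g1.trans a1).trans ?_
      rw [f4', h4]; simp [cross3, crossProduct]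
    · refine (g2.trans a2).trans ?_
      rw [h4]; simp [cross3, crossProduct]

theorem JX_vert (x : Torus × S2) (t : TangentSpace (𝓡 2) x.2) :
    JX x ((0 : TangentSpace IT x.1), t) = ((0 : TangentSpace IT x.1), rotJ x.2 t) := by
  apply emb_injective_deriv x
  have h1 := emb_JX x ((0 : TangentSpace IT x.1), t)
  have h2 := emb_vert x (rotJ x.2 t)
  rw [incl_rotJ] at h2
  refine h1.trans (Eq.trans ?_ h2.symm)
  have h3 := congrArg (Jamb (emb x)) (emb_vert x t)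
  exact h3.trans (Jamb_vert (emb x) (incl x.2 t))

theorem JX_fst_zero (x : Torus × S2) (v : TangentSpace IX x) (hv : v.1 = 0) : (JX x v).1 = 0 := by
  have h1 : v = ((0 : TangentSpace IT x.1), v.2) := Prod.ext hv rfl
  have h2 := (congrArg (JX x) h1).trans (JX_vert x v.2)
  exact congrArg Prod.fst h2

theorem isJHolomorphic_vert (b : Torus) : IsJHolomorphic IX JX (fun z : S2 => (b, z)) where
  smooth := contMDiff_const.prodMk contMDiff_id
  holo := by
    intro z v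
    rw [mfderiv_prod_right]
    exact (JX_vert (b, z) v).symm

theorem isCoveringFamily : IsCoveringFamily IX IT JX (fun (b : Torus) (z : S2) => (b, z)) where
  smooth := contMDiff_id
  holo := isJHolomorphic_vert
  covers := fun x => ⟨x.1, x.2, rfl⟩

end Vertical

section Coframe

/-- tangent vectors of the torus as ambient vectors -/
def LT (b : Torus) : TangentSpace IT b →L[ℝ] Amb :=
  (ContinuousLinearMap.inl ℝ (ℂ × ℂ × ℂ × ℂ) (EuclideanSpace ℝ (Fin 3))) ∘L (mvfderiv IT embT b)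

/-- The rotating coframe on the torus. -/
def ce1 (b : Torus) : TangentSpace IT b →L[ℝ] ℝ := (E1 (embT b, 0)) ∘L (LT b)
def ce2 (b : Torus) : TangentSpace IT b →L[ℝ] ℝ := (E2 (embT b, 0)) ∘L (LT b)
def ce3 (b : Torus) : TangentSpace IT b →L[ℝ] ℝ := (E3 (embT b, 0)) ∘L (LT b)
def ce4 (b : Torus) : TangentSpace IT b →L[ℝ] ℝ := (E4 (embT b, 0)) ∘L (LT b)

theorem E1_emb (x : Torus × S2) (v : TangentSpace IX x) :
    E1 (emb x) (mvfderiv IX emb x v) = ce1 x.1 v.1 := by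
  rw [mvfderiv_emb]
  simp [E1, ce1, LT, ang_apply, emb, embT]

theorem E2_emb (x : Torus × S2) (v : TangentSpace IX x) :
    E2 (emb x) (mvfderiv IX emb x v) = ce2 x.1 v.1 := by
  rw [mvfderiv_emb]
  simp [E2, ce2, LT, ang_apply, emb, embT]

theorem E3_emb (x : Torus × S2) (v : TangentSpace IX x) :
    E3 (emb x) (mvfderiv IX emb x v) = ce3 x.1 v.1 := by
  rw [mvfderiv_emb]
  simp [E3, ce3, LT, ang_apply, emb, embT]

theorem E4_emb (x : Torus × S2) (v : TangentSpace IX x) :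
    E4 (emb x) (mvfderiv IX emb x v) = ce4 x.1 v.1 := by
  rw [mvfderiv_emb]
  simp [E4, ce4, LT, ang_apply, emb, embT]

/-- the almost complex structure in the coframe -/
theorem ce_JX (b : Torus) (z : S2) (v : TangentSpace IX ((b, z) : Torus × S2)) :
    ce1 b (JX (b, z) v).1 = -ce3 b v.1 - 2 * z.1 2 * ce2 b v.1 ∧
    ce2 b (JX (b, z) v).1 = -ce4 b v.1 + 2 * z.1 2 * ce1 b v.1 ∧
    ce3 b (JX (b, z) v).1 = (1 - 4 * z.1 2 * z.1 2) * ce1 b v.1 + 2 * z.1 2 * ce4 b v.1 ∧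
    ce4 b (JX (b, z) v).1 = (1 - 4 * z.1 2 * z.1 2) * ce2 b v.1 - 2 * z.1 2 * ce3 b v.1 := by
  have a1 := E1_emb (b, z) (JX (b, z) v)
  have a2 := E2_emb (b, z) (JX (b, z) v)
  have a3 := E3_emb (b, z) (JX (b, z) v)
  have a4 := E4_emb (b, z) (JX (b, z) v)
  have c1 := E1_emb (b, z) v
  have c2 := E2_emb (b, z) v
  have c3 := E3_emb (b, z) v
  have c4 := E4_emb (b, z) v
  obtain ⟨e1, e2, e3, e4⟩ := E_Jamb (isPt_emb (b, z)) (mvfderiv IX emb (b, z) v)
  obtain ⟨f1, f2, f3, f4⟩ := F_apply (emb (b, z)) (mvfderiv IX emb (b, z) v)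
  rw [emb_JX] at a1 a2 a3 a4
  refine ⟨?_, ?_, ?_, ?_⟩
  · rw [← a1, e1, f1, c2, c3]; rfl
  · rw [← a2, e2, f2, c1, c4]; rfl
  · rw [← a3, e3, f3, c1, c4]; rfl
  · rw [← a4, e4, f4, c2, c3]; rfl

end Coframe

section Eta

/-- The ambient expression of the (0,1)-form which is not in the image. -/
def Neta (b : ℂ × ℂ × ℂ × ℂ) (y t : EuclideanSpace ℝ (Fin 3)) : Amb :=
  (((t 0 / 2 : ℝ) • (Complex.I * b.1), (b.1.im * (y 2 * t 0) : ℝ) • (Complex.I * b.2.1),
    (b.1.re * (y 2 * t 0) : ℝ) • (Complex.I * b.2.2.1),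
    ((y 1 * t 2 - y 2 * t 1) / 2 : ℝ) • (Complex.I * b.2.2.2)),
    WithLp.toLp 2 ![-(y 1) * (y 2 * t 0), y 0 * (y 2 * t 0), 0])

/-- The same, as a linear map. -/
def NetaL (b : ℂ × ℂ × ℂ × ℂ) (y : EuclideanSpace ℝ (Fin 3)) :
    EuclideanSpace ℝ (Fin 3) →ₗ[ℝ] Amb where
  toFun t := Neta b y t
  map_add' s t := by
    refine Prod.ext (Prod.ext ?_ (Prod.ext ?_ (Prod.ext ?_ ?_))) ?_
    · simp [Neta]; ring
    · simp [Neta]; ring
    · simp [Neta]; ring
    · simp [Neta]; ring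
    · ext i; fin_cases i <;> simp [Neta] <;> ring
  map_smul' r t := by
    refine Prod.ext (Prod.ext ?_ (Prod.ext ?_ (Prod.ext ?_ ?_))) ?_
    · simp [Neta]; ring
    · simp [Neta]; ring
    · simp [Neta]; ring
    · simp [Neta]; ring
    · ext i; fin_cases i <;> simp [Neta] <;> ring

theorem isTan_Neta (b : Torus) (z : S2) (t : EuclideanSpace ℝ (Fin 3)) :
    IsTan (emb (b, z)) (Neta (embT b) z t) ![t 0 / 2, (b.1 : ℂ).im * (z.1 2 * t 0),
      (b.1 : ℂ).re * (z.1 2 * t 0), (z.1 1 * t 2 - z.1 2 * t 1) / 2] := by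
  refine ⟨?_, ?_, ?_, ?_, ?_, ?_, ?_, ?_, ?_⟩
  all_goals simp [Neta, emb, embT]
  ring

theorem E_Neta (b : Torus) (z : S2) (t : EuclideanSpace ℝ (Fin 3)) :
    E1 (emb (b, z)) (Neta (embT b) z t) = t 0 / 2 ∧
    E2 (emb (b, z)) (Neta (embT b) z t) = 0 ∧
    E3 (emb (b, z)) (Neta (embT b) z t) = (z.1 1 * t 2 - z.1 2 * t 1) / 2 ∧
    E4 (emb (b, z)) (Neta (embT b) z t) = z.1 2 * t 0 := by
  have hp := isPt_emb (b, z)
  have hT := isTan_Neta b z t
  set p := emb (b, z) with hpdef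
  set a := Neta (embT b) z t with ha
  have n1 : (b.1 : ℂ).re * (b.1 : ℂ).re + (b.1 : ℂ).im * (b.1 : ℂ).im = 1 := hp.n1
  refine ⟨?_, ?_, ?_, ?_⟩
  · have := hT.ang1 hp
    simpa [E1] using this
  · simp only [E2, sub_apply, smul_apply, smul_eq_mul, hT.ang2 hp, hT.ang3 hp]
    simp [p, emb]
    ring
  · have := hT.ang4 hp
    simpa [E3] using this
  · simp only [E4, add_apply, smul_apply, smul_eq_mul, hT.ang2 hp, hT.ang3 hp]
    simp [p, emb]
    linear_combination (z.1 2 * t 0) * n1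

theorem Neta_cross (b : Torus) (z : S2) (t : EuclideanSpace ℝ (Fin 3))
    (ht : z.1 0 * t 0 + z.1 1 * t 1 + z.1 2 * t 2 = 0) :
    Neta (embT b) z (cross3 z t) = -Jamb (emb (b, z)) (Neta (embT b) z t) := by
  have hp := isPt_emb (b, z)
  obtain ⟨e1, e2, e3, e4⟩ := E_Neta b z t
  set p := emb (b, z) with hpdef
  set a := Neta (embT b) z t with ha
  obtain ⟨f1, f2, f3, f4⟩ := F_apply p a
  have hp2 : p.2 2 = z.1 2 := rfl
  rw [e3, e2] at f1
  rw [e4, e1, hp2] at f2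
  rw [e1, e4, hp2] at f3
  rw [e2, e3, hp2] at f4
  have f1' : F1 p a = -((z.1 1 * t 2 - z.1 2 * t 1) / 2) := by rw [f1]; ring
  have f2' : F2 p a = 0 := by rw [f2]; ring
  have f3' : F3 p a = t 0 / 2 := by rw [f3]; ring
  have f4' : F4 p a = -(z.1 2 * (z.1 1 * t 2 - z.1 2 * t 1)) := by rw [f4]; ring
  obtain ⟨a0, a1, a2⟩ := G_apply p a
  obtain ⟨g0, g1, g2⟩ := Jamb_snd p a
  have hn : z.1 0 * z.1 0 + z.1 1 * z.1 1 + z.1 2 * z.1 2 = 1 := hp.ny
  refine Prod.ext (Prod.ext ?_ (Prod.ext ?_ (Prod.ext ?_ ?_))) ?_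
  · simp [Jamb, f1', Neta, cross3, crossProduct]
    simp [p, emb, embT]
  · simp [Jamb, f2', f4', Neta, cross3, crossProduct]
    simp [p, emb, embT]
  · simp [Jamb, f2', f4', Neta, cross3, crossProduct]
    simp [p, emb, embT]
  · have h4 : z.1 1 * (z.1 0 * t 1 - z.1 1 * t 0) - z.1 2 * (z.1 2 * t 0 - z.1 0 * t 2)
      = - t 0 := by linear_combination z.1 0 * ht - t 0 * hn
    have h5 : (Neta (embT b) z (cross3 z t)).1.2.2.2
        = ((z.1 1 * (z.1 0 * t 1 - z.1 1 * t 0) - z.1 2 * (z.1 2 * t 0 - z.1 0 * t 2)) / 2 : ℝ) •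
          (Complex.I * (b.2.2.2 : ℂ)) := by
      simp [Neta, cross3, crossProduct, embT]
    rw [h5, h4]
    simp [Jamb, f3']
    simp [p, emb]
    ring
  · ext i
    fin_cases i
    · refine Eq.trans ?_ (congrArg Neg.neg (g0.trans a0)).symm
      rw [f4', e4]
      simp [a, Neta, cross3, crossProduct]
      simp [p, emb]
      ring
    · refine Eq.trans ?_ (congrArg Neg.neg (g1.trans a1)).symm
      rw [f4', e4]
      simp [a, Neta, cross3, crossProduct]
      simp [p, emb]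
      ring
    · refine Eq.trans ?_ (congrArg Neg.neg (g2.trans a2)).symm
      rw [e4]
      simp [a, Neta, cross3, crossProduct]
      simp [p, emb]
      ring

theorem exists_eta (b : Torus) (z : S2) :
    ∃ η : TangentSpace (𝓡 2) z →L[ℝ] TangentSpace IX ((b, z) : Torus × S2),
      ∀ t, mvfderiv IX emb (b, z) (η t) = Neta (embT b) z (incl z t) := by
  have : FiniteDimensional ℝ (TangentSpace (𝓡 2) z) :=
    inferInstanceAs (FiniteDimensional ℝ (EuclideanSpace ℝ (Fin 2)))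
  have : T2Space (TangentSpace (𝓡 2) z) := inferInstanceAs (T2Space (EuclideanSpace ℝ (Fin 2)))
  obtain ⟨g, hg⟩ := LinearMap.exists_leftInverse_of_injective (mvfderiv IX emb (b, z)).toLinearMap
    (LinearMap.ker_eq_bot.2 (emb_injective_deriv (b, z)))
  refine ⟨LinearMap.toContinuousLinearMap
    (g ∘ₗ (NetaL (embT b) z) ∘ₗ (incl z).toLinearMap), fun t => ?_⟩
  obtain ⟨w, hw⟩ := exists_of_isTan (b, z) (isTan_Neta b z (incl z t))
  have h2 : g (Neta (embT b) z (incl z t)) = w := by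
    rw [← hw]
    exact LinearMap.congr_fun hg w
  rw [← hw]
  congr 1

/-- The (0,1)-form which is not in the image of the linearised operator. -/
def eta (b : Torus) (z : S2) : TangentSpace (𝓡 2) z →L[ℝ] TangentSpace IX ((b, z) : Torus × S2) :=
  Classical.choose (exists_eta b z)

theorem emb_eta (b : Torus) (z : S2) (t : TangentSpace (𝓡 2) z) :
    mvfderiv IX emb (b, z) (eta b z t) = Neta (embT b) z (incl z t) :=
  Classical.choose_spec (exists_eta b z) t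

theorem contDiff_Neta (b : ℂ × ℂ × ℂ × ℂ) : ContDiff ℝ ∞
    (fun q : EuclideanSpace ℝ (Fin 3) × EuclideanSpace ℝ (Fin 3) => Neta b q.1 q.2) := by
  unfold Neta
  apply ContDiff.prodMk
  · fun_prop
  · rw [contDiff_euclidean]
    intro i
    fin_cases i
    · exact (by fun_prop : ContDiff ℝ ∞ (fun q : EuclideanSpace ℝ (Fin 3) ×
        EuclideanSpace ℝ (Fin 3) => -(q.1 1) * (q.1 2 * q.2 0)))
    · exact (by fun_prop : ContDiff ℝ ∞ (fun q : EuclideanSpace ℝ (Fin 3) ×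
        EuclideanSpace ℝ (Fin 3) => (q.1 0) * (q.1 2 * q.2 0)))
    · exact contDiff_const

theorem isZeroOneForm_eta (b : Torus) :
    IsZeroOneForm IX JX (fun z : S2 => ((b, z) : Torus × S2)) (eta b) where
  smooth := by
    apply contMDiff_lift contMDiff_emb emb_injective_deriv
    · exact contMDiff_const.prodMk (Bundle.contMDiff_proj (TangentSpace (𝓡 2)))
    · have h : (fun v : TangentBundle (𝓡 2) S2 =>
          mvfderiv IX emb ((b, v.1) : Torus × S2) (eta b v.1 v.2)) =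
        (fun q : EuclideanSpace ℝ (Fin 3) × EuclideanSpace ℝ (Fin 3) => Neta (embT b) q.1 q.2) ∘
          (fun v : TangentBundle (𝓡 2) S2 => ((v.1 : EuclideanSpace ℝ (Fin 3)), incl v.1 v.2)) := by
        funext v
        exact emb_eta b v.1 v.2
      have h2 := (contDiff_Neta (embT b)).contMDiff.comp
        (ContMDiff.prodMk_space (contMDiff_S2_coe.comp (Bundle.contMDiff_proj (TangentSpace (𝓡 2))))
          (contMDiff_mvfderiv contMDiff_S2_coe))
      exact h ▸ h2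
  antilinear := by
    intro z t
    apply emb_injective_deriv (b, z)
    rw [emb_eta, map_neg, emb_JX, emb_eta, incl_rotJ]
    exact Neta_cross b z (incl z t) (S2_orth z t)

end Eta

section NotRegular

/-- model space of the torus -/
abbrev ET : Type := EuclideanSpace ℝ (Fin 1) × EuclideanSpace ℝ (Fin 1) ×
  EuclideanSpace ℝ (Fin 1) × EuclideanSpace ℝ (Fin 1)

/-- the horizontal part of the equation `D_u ξ = η` in direction `T2` -/
theorem horizontal_eq (b : Torus) (ξ : ∀ z : S2, TangentSpace IX ((b, z) : Torus × S2))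
    (hξ : IsSmoothSection IX (fun z : S2 => ((b, z) : Torus × S2)) ξ)
    (hlin : ∀ z, linearization IX JX (fun z : S2 => ((b, z) : Torus × S2)) ξ z = eta b z)
    (c : TangentSpace IT b →L[ℝ] ℝ) (q : ℝ × ℝ)
    (D : TangentSpace (𝓡 2) (phi q) →L[ℝ] ET)
    (hD : D = mvfderiv (𝓡 2) (fun z => ((ξ z).1 : ET)) (phi q)) :
    2 * c (eta b (phi q) (T2 q)).1 = c (D (T2 q)) + c (JX (b, phi q)
      ((D (rotJ (phi q) (T2 q)) : ET), (0 : EuclideanSpace ℝ (Fin 2)))).1 := by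
  have h1 := linearization_fst IT JX JX_fst_zero b ξ hξ (phi q) (T2 q) D hD (D (T2 q))
    (JX (b, phi q) ((D (rotJ (phi q) (T2 q)) : ET), (0 : EuclideanSpace ℝ (Fin 2)))).1 rfl rfl
  have h2 : (eta b (phi q) (T2 q)).1 = ((1 / 2 : ℝ) • ((D (T2 q)) + (JX (b, phi q)
    ((D (rotJ (phi q) (T2 q)) : ET), (0 : EuclideanSpace ℝ (Fin 2)))).1) : ET) := by
    rw [← hlin (phi q)]
    exact h1
  have h3 := congrArg (fun v : ET => c v) h2
  have h4 : c ((1 / 2 : ℝ) • ((D (T2 q)) + (JX (b, phi q)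
    ((D (rotJ (phi q) (T2 q)) : ET), (0 : EuclideanSpace ℝ (Fin 2)))).1) : ET) =
    (1 / 2 : ℝ) * (c (D (T2 q)) + c (JX (b, phi q)
      ((D (rotJ (phi q) (T2 q)) : ET), (0 : EuclideanSpace ℝ (Fin 2)))).1) := by
    have h5 := map_smul c (1 / 2 : ℝ) ((D (T2 q)) + (JX (b, phi q)
      ((D (rotJ (phi q) (T2 q)) : ET), (0 : EuclideanSpace ℝ (Fin 2)))).1 : ET)
    have h6 := map_add c (D (T2 q) : ET) (JX (b, phi q)
      ((D (rotJ (phi q) (T2 q)) : ET), (0 : EuclideanSpace ℝ (Fin 2)))).1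
    refine h5.trans ?_
    rw [smul_eq_mul]
    congr 1
  have h7 : c (eta b (phi q) (T2 q)).1 = (1 / 2 : ℝ) * (c (D (T2 q)) + c (JX (b, phi q)
      ((D (rotJ (phi q) (T2 q)) : ET), (0 : EuclideanSpace ℝ (Fin 2)))).1) := h3.trans h4
  rw [h7]
  ring

/-- the (0,1)-form in the coframe -/
theorem ce_eta (b : Torus) (z : S2) (t : TangentSpace (𝓡 2) z) :
    ce1 b (eta b z t).1 = incl z t 0 / 2 ∧
    ce2 b (eta b z t).1 = 0 ∧
    ce3 b (eta b z t).1 = (z.1 1 * incl z t 2 - z.1 2 * incl z t 1) / 2 ∧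
    ce4 b (eta b z t).1 = z.1 2 * incl z t 0 := by
  obtain ⟨e1, e2, e3, e4⟩ := E_Neta b z (incl z t)
  have a1 := E1_emb (b, z) (eta b z t)
  have a2 := E2_emb (b, z) (eta b z t)
  have a3 := E3_emb (b, z) (eta b z t)
  have a4 := E4_emb (b, z) (eta b z t)
  rw [emb_eta] at a1 a2 a3 a4
  exact ⟨a1.symm.trans e1, a2.symm.trans e2, a3.symm.trans e3, a4.symm.trans e4⟩

/-- No vertical sphere is regular. -/
theorem not_isRegular_vert (b : Torus) : ¬ IsRegular IX JX (fun z : S2 => ((b, z) : Torus × S2)) := by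
  intro hreg
  obtain ⟨ξ, hξ, hlin⟩ := hreg (eta b) (isZeroOneForm_eta b)
  have hs := contMDiff_fst_section IT b ξ hξ
  have hd : ∀ z, MDifferentiableAt (𝓡 2) 𝓘(ℝ, ET) (fun z => ((ξ z).1 : ET)) z :=
    fun z => (hs z).mdifferentiableAt (by simp)
  have hX : ∀ c : TangentSpace IT b →L[ℝ] ℝ,
      ContMDiff (𝓡 2) 𝓘(ℝ, ℝ) ∞ (fun z : S2 => c (ξ z).1) := fun c =>
    (ContinuousLinearMap.contMDiff c).comp hs
  set D : ∀ q : ℝ × ℝ, TangentSpace (𝓡 2) (phi q) →L[ℝ] ET := fun q =>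
    mvfderiv (𝓡 2) (fun z => ((ξ z).1 : ET)) (phi q) with hD
  have hd1 : ∀ (c : TangentSpace IT b →L[ℝ] ℝ) (q : ℝ × ℝ),
      c (D q (T1 q)) = d1 (fun q => c (ξ (phi q)).1) q := fun c q =>
    (mvfderiv_clm_apply c (hd (phi q)) (T1 q)).symm.trans (d1_comp_phi (hX c) q).symm
  have hd2 : ∀ (c : TangentSpace IT b →L[ℝ] ℝ) (q : ℝ × ℝ),
      c (D q (T2 q)) = d2 (fun q => c (ξ (phi q)).1) q := fun c q =>
    (mvfderiv_clm_apply c (hd (phi q)) (T2 q)).symm.trans (d2_comp_phi (hX c) q).symm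
  have hrot : ∀ (c : TangentSpace IT b →L[ℝ] ℝ) (q : ℝ × ℝ),
      c (D q (rotJ (phi q) (T2 q))) = -Real.sin q.1 * d1 (fun q => c (ξ (phi q)).1) q := by
    intro c q
    rw [rotJ_T2, map_smul, ← hd1]
    exact map_smul c _ _
  have z2 : ∀ q : ℝ × ℝ, (phi q).1 2 = Real.cos q.1 := fun q => by rw [phi_coe]; simp [phi0]
  have z1 : ∀ q : ℝ × ℝ, (phi q).1 1 = Real.sin q.1 * Real.sin q.2 := fun q => by
    rw [phi_coe]; simp [phi0]
  have t0 : ∀ q : ℝ × ℝ, incl (phi q) (T2 q) 0 = -Real.sin q.1 * Real.sin q.2 := fun q => by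
    rw [incl_T2]; simp
  have t1 : ∀ q : ℝ × ℝ, incl (phi q) (T2 q) 1 = Real.sin q.1 * Real.cos q.2 := fun q => by
    rw [incl_T2]; simp
  have t2 : ∀ q : ℝ × ℝ, incl (phi q) (T2 q) 2 = 0 := fun q => by
    rw [incl_T2]; simp
  refine no_solution (fun q => ce1 b (ξ (phi q)).1) (fun q => ce2 b (ξ (phi q)).1)
    (fun q => ce3 b (ξ (phi q)).1) (fun q => ce4 b (ξ (phi q)).1)
    (contDiff_comp_phi (hX (ce1 b))) (contDiff_comp_phi (hX (ce2 b)))
    (contDiff_comp_phi (hX (ce3 b))) (contDiff_comp_phi (hX (ce4 b)))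
    ?_ ?_ ?_ ?_ ?_ ?_ ?_ ?_
  · exact fun t => congrArg (fun z : S2 => ce1 b (ξ z).1) (phi_periodic t)
  · exact fun t => congrArg (fun z : S2 => ce2 b (ξ z).1) (phi_periodic t)
  · exact fun t => congrArg (fun z : S2 => ce3 b (ξ z).1) (phi_periodic t)
  · exact fun t => congrArg (fun z : S2 => ce4 b (ξ z).1) (phi_periodic t)
  · intro q
    have h := horizontal_eq b ξ hξ hlin (ce1 b) q (D q) rfl
    obtain ⟨j1, j2, j3, j4⟩ := ce_JX b (phi q)
      ((D q (rotJ (phi q) (T2 q)) : ET), (0 : EuclideanSpace ℝ (Fin 2)))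
    obtain ⟨k1, k2, k3, k4⟩ := ce_eta b (phi q) (T2 q)
    rw [k1, hd2, j1, hrot, hrot, t0, z2] at h
    linear_combination -h
  · intro q
    have h := horizontal_eq b ξ hξ hlin (ce2 b) q (D q) rfl
    obtain ⟨j1, j2, j3, j4⟩ := ce_JX b (phi q)
      ((D q (rotJ (phi q) (T2 q)) : ET), (0 : EuclideanSpace ℝ (Fin 2)))
    obtain ⟨k1, k2, k3, k4⟩ := ce_eta b (phi q) (T2 q)
    rw [k2, hd2, j2, hrot, hrot, z2] at h
    linear_combination -h
  · intro q
    have h := horizontal_eq b ξ hξ hlin (ce3 b) q (D q) rfl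
    obtain ⟨j1, j2, j3, j4⟩ := ce_JX b (phi q)
      ((D q (rotJ (phi q) (T2 q)) : ET), (0 : EuclideanSpace ℝ (Fin 2)))
    obtain ⟨k1, k2, k3, k4⟩ := ce_eta b (phi q) (T2 q)
    rw [k3, hd2, j3, hrot, hrot, t1, t2, z2] at h
    linear_combination -h
  · intro q
    have h := horizontal_eq b ξ hξ hlin (ce4 b) q (D q) rfl
    obtain ⟨j1, j2, j3, j4⟩ := ce_JX b (phi q)
      ((D q (rotJ (phi q) (T2 q)) : ET), (0 : EuclideanSpace ℝ (Fin 2)))
    obtain ⟨k1, k2, k3, k4⟩ := ce_eta b (phi q) (T2 q)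
    rw [k4, hd2, j4, hrot, hrot, t0, z2] at h
    linear_combination -h

end NotRegular

end Pool.Agent.Helper29.JSphere
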